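import Pool.Agent.M3C.Orbit

/-!
# Minkowski's theorem for three linear forms and the octahedron
-/

set_option autoImplicit false

open Matrix Filter Topology Set MeasureTheory

namespace M3C

open Margulis3

lemma oct_volume : volume {x : Fin 3 → ℝ | |x 0| + |x 1| + |x 2| < 37 / 20} =
    ENNReal.ofReal (50653 / 6000) := by
  have h1 := volume_sum_rpow_lt (Fin 3) (p := 1) le_rfl (37 / 20)
  have e1 : {x : Fin 3 → ℝ | (∑ i, |x i| ^ (1 : ℝ)) ^ ((1 : ℝ) / 1) < 37 / 20}
      = {x : Fin 3 → ℝ | |x 0| + |x 1| + |x 2| < 37 / 20} := by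
    ext x
    simp [Fin.sum_univ_three]
  rw [e1] at h1
  rw [h1]
  have g1 : Real.Gamma (1 / 1 + 1) = 1 := by
    rw [div_one, one_add_one_eq_two, Real.Gamma_two]
  have g2 : Real.Gamma ((Fintype.card (Fin 3) : ℝ) / 1 + 1) = 6 := by
    rw [div_one, Real.Gamma_nat_eq_factorial]
    norm_num [Nat.factorial]
  rw [g1, g2, Fintype.card_fin, ← ENNReal.ofReal_pow (by norm_num), ← ENNReal.ofReal_mul (by norm_num)]
  norm_num

theorem minkowski {M : Mt} (hM : M.det = 1) :
    ∃ v : Fin 3 → ℤ, v ≠ 0 ∧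
      |(M *ᵥ cv v) 0| + |(M *ᵥ cv v) 1| + |(M *ᵥ cv v) 2| < 37 / 20 := by
  set b := Pi.basisFun ℝ (Fin 3) with hb
  set s : Set (Fin 3 → ℝ) := {x | |(M *ᵥ x) 0| + |(M *ᵥ x) 1| + |(M *ᵥ x) 2| < 37 / 20} with hs
  have hvol : volume s = ENNReal.ofReal (50653 / 6000) := by
    have h1 : s = (Matrix.toLin' M) ⁻¹' {x : Fin 3 → ℝ | |x 0| + |x 1| + |x 2| < 37 / 20} := by
      ext x
      simp [hs, Matrix.toLin'_apply]
    have hdet : LinearMap.det (Matrix.toLin' M) = 1 := by
      rw [LinearMap.det_toLin', hM]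
    rw [h1, Measure.addHaar_preimage_linearMap volume (by rw [hdet]; exact one_ne_zero), hdet,
      oct_volume]
    simp
  have hfund := ZSpan.isAddFundamentalDomain' b (volume : Measure (Fin 3 → ℝ))
  have hF : volume (ZSpan.fundamentalDomain b) = 1 := by
    rw [ZSpan.volume_fundamentalDomain]
    have : Matrix.of b = (1 : Mt) := by
      ext i j
      simp [hb, Pi.basisFun_apply, Matrix.one_apply, Pi.single_apply, eq_comm]
    rw [this]; simp
  have hsymm : ∀ x ∈ s, -x ∈ s := by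
    intro x hx
    simp only [hs, mem_ofPred_eq, mulVec_neg, Pi.neg_apply, abs_neg] at hx ⊢
    exact hx
  have hconv : Convex ℝ s := by
    have h1 : ConvexOn ℝ univ (fun x : Fin 3 → ℝ => |(M *ᵥ x) 0| + |(M *ᵥ x) 1| + |(M *ᵥ x) 2|) := by
      refine ⟨convex_univ, fun x _ y _ a c ha hc hac => ?_⟩
      have e : ∀ i, |(M *ᵥ (a • x + c • y)) i| ≤ a * |(M *ᵥ x) i| + c * |(M *ᵥ y) i| := by
        intro i
        rw [mulVec_add, mulVec_smul, mulVec_smul]
        simp only [Pi.add_apply, Pi.smul_apply, smul_eq_mul]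
        refine (abs_add_le _ _).trans ?_
        rw [abs_mul, abs_mul, abs_of_nonneg ha, abs_of_nonneg hc]
      simp only [smul_eq_mul]
      have e0 := e 0
      have e1 := e 1
      have e2 := e 2
      linarith
    have h2 := h1.convex_lt (37 / 20)
    have h3 : s = {x : Fin 3 → ℝ | x ∈ (univ : Set (Fin 3 → ℝ)) ∧
        |(M *ᵥ x) 0| + |(M *ᵥ x) 1| + |(M *ᵥ x) 2| < 37 / 20} := by
      ext x
      simp [hs]
    rw [h3]; exact h2
  have : Countable (Submodule.span ℤ (Set.range b)).toAddSubgroup := by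
    change Countable (Submodule.span ℤ (Set.range b))
    infer_instance
  obtain ⟨x, hx0, hxs⟩ := exists_ne_zero_mem_lattice_of_measure_mul_two_pow_lt_measure hfund
    hsymm hconv (by
      rw [hF, hvol, one_mul, Module.finrank_fin_fun]
      have : (2 : ENNReal) ^ 3 = ENNReal.ofReal 8 := by
        rw [show (8 : ℝ) = 2 ^ 3 by norm_num, ENNReal.ofReal_pow (by norm_num)]
        simp
      rw [this, ENNReal.ofReal_lt_ofReal_iff (by norm_num)]
      norm_num)
  have hxm : (x : Fin 3 → ℝ) ∈ Submodule.span ℤ (Set.range b) := x.2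
  rw [Module.Basis.mem_span_iff_repr_mem] at hxm
  choose v hv using hxm
  have hxv : (x : Fin 3 → ℝ) = cv v := by
    funext i
    have := hv i
    simp [hb] at this
    exact this.symm
  refine ⟨v, ?_, ?_⟩
  · rintro rfl
    apply hx0
    apply Subtype.ext
    rw [hxv]
    funext i
    simp [cv]
  · have := hxs
    rw [hxv] at this
    exact this

/-- arithmetic-geometric mean for the product of three numbers -/
lemma prod_le {a b c r : ℝ} (ha : 0 ≤ a) (hb : 0 ≤ b) (hc : 0 ≤ c) (h : a + b + c ≤ r) :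
    27 * (a * b * c) ≤ r ^ 3 := by
  have h1 : 27 * (a * b * c) ≤ (a + b + c) ^ 3 := by
    nlinarith [mul_nonneg ha (sq_nonneg (b - c)), mul_nonneg hb (sq_nonneg (a - c)),
      mul_nonneg hc (sq_nonneg (a - b)), mul_nonneg (add_nonneg (add_nonneg ha hb) hc)
        (add_nonneg (add_nonneg (sq_nonneg (a - b)) (sq_nonneg (b - c))) (sq_nonneg (a - c)))]
  exact h1.trans (pow_le_pow_left₀ (by positivity) h 3)

theorem minkowski' {M : Mt} (hM : M.det = 1) :
    ∃ v : Fin 3 → ℤ, v ≠ 0 ∧ (∀ i, |(M *ᵥ cv v) i| ≤ 37 / 20) ∧ |prodForm M (cv v)| ≤ 1 / 4 := by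
  obtain ⟨v, hv, h⟩ := minkowski hM
  have a0 := abs_nonneg ((M *ᵥ cv v) 0)
  have a1 := abs_nonneg ((M *ᵥ cv v) 1)
  have a2 := abs_nonneg ((M *ᵥ cv v) 2)
  refine ⟨v, hv, ?_, ?_⟩
  · intro i
    fin_cases i
    · change |(M *ᵥ cv v) 0| ≤ _; linarith
    · change |(M *ᵥ cv v) 1| ≤ _; linarith
    · change |(M *ᵥ cv v) 2| ≤ _; linarith
  · have h1 := prod_le a0 a1 a2 h.le
    unfold prodForm
    rw [Fin.prod_univ_three, abs_mul, abs_mul]
    norm_num at h1
    linarith

end M3C
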