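import Pool.Agent.M3C.Isol
import Pool.Agent.M3C.Mink

/-!
# The criteria: finite value sets, countable closures of value sets, isolated values
-/

set_option autoImplicit false

open Matrix Filter Topology Set

namespace M3C

open Margulis3

/-- values at points of the closure are limits of values -/
lemma value_limit {g M : Mt} (hM : M ∈ closure (orbitSet g)) {v : Fin 3 → ℤ} (hv : v ≠ 0) :
    prodForm M (cv v) ∈ closure {t : ℝ | ∃ w : Fin 3 → ℤ, w ≠ 0 ∧ prodForm g (cv w) = t} := by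
  refine map_mem_closure (f := fun N : Mt => prodForm N (cv v)) (continuous_prodForm (cv v)) hM ?_
  rintro N ⟨d, hd, γ, hγ, rfl⟩
  refine ⟨γ *ᵥ v, mulVec_ne hγ hv, ?_⟩
  change _ = prodForm (_ * g * ir γ) (cv v)
  rw [prodForm_ir, prodForm_diag hd]

/-- closed bounded orbits are locally rigid -/
theorem loc_of_closed {g : Mt} (hS : Bd (orbitSet g)) : Loc (orbitSet g) := by
  obtain ⟨K, hK, hKS⟩ := hS.cpt
  set e1 : Fin 3 → ℤ := ![1, 0, 0] with he1
  have he1' : e1 ≠ 0 := by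
    intro h
    have := congrFun h 0
    simp [he1] at this
  have hcont : Continuous (fun N : Mt => ∑ i, |(N *ᵥ cv e1) i|) := by
    refine continuous_finsetSum _ fun i _ => ?_
    exact ((continuous_apply i).comp
      ((continuous_id (X := Mt)).matrix_mulVec continuous_const)).abs
  obtain ⟨R, hR⟩ := (hK.image hcont).bddAbove
  have hD : {t : ℝ | ∃ w : Fin 3 → ℤ, prodForm g (cv w) = t}.Countable := by
    have : {t : ℝ | ∃ w : Fin 3 → ℤ, prodForm g (cv w) = t}
        = range (fun w : Fin 3 → ℤ => prodForm g (cv w)) := rfl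
    rw [this]; exact countable_range _
  obtain ⟨h, hh, hcl, hloc⟩ := exists_closed_orbit hS hD R (by
    intro M hM
    obtain ⟨γ, hγ, hk⟩ := hKS M hM
    refine ⟨γ *ᵥ e1, mulVec_ne hγ he1', ?_, ?_⟩
    · intro i
      have h1 : M *ᵥ cv (γ *ᵥ e1) = (M * ir γ) *ᵥ cv e1 := by
        rw [← ir_mulVec, mulVec_mulVec]
      rw [h1]
      have h2 : ∑ i, |((M * ir γ) *ᵥ cv e1) i| ≤ R := hR ⟨_, hk, rfl⟩
      exact (Finset.single_le_sum (f := fun i => |((M * ir γ) *ᵥ cv e1) i|)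
        (fun _ _ => abs_nonneg _) (Finset.mem_univ i)).trans h2
    · obtain ⟨d, hd, β, hβ, rfl⟩ := hM
      refine ⟨β *ᵥ (γ *ᵥ e1), ?_⟩
      change _ = prodForm (_ * g * ir β) (cv (γ *ᵥ e1))
      rw [prodForm_ir, prodForm_diag hd])
  rw [← orbit_eq hh]
  exact hloc

/-- a diagonal matrix balancing the coordinates -/
lemma balance {y : Fin 3 → ℝ} {c : ℝ} (hy : 0 < |y 0 * y 1 * y 2|)
    (hc : |y 0 * y 1 * y 2| ≤ c) :
    ∃ a : Fin 3 → ℝ, (Matrix.diagonal a).det = 1 ∧ ∀ i, |a i * y i| ≤ max c 1 := by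
  have hne : y 0 * y 1 * y 2 ≠ 0 := abs_pos.mp hy
  have h0 : y 0 ≠ 0 := by rintro h; rw [h] at hne; simp at hne
  have h1 : y 1 ≠ 0 := by rintro h; rw [h] at hne; simp at hne
  have h2 : y 2 ≠ 0 := by rintro h; rw [h] at hne; simp at hne
  have hyi : ∀ i, y i ≠ 0 := by intro i; fin_cases i <;> assumption
  set P := |y 0 * y 1 * y 2| with hP
  obtain ⟨t, ht0, ht⟩ : ∃ t : ℝ, 0 < t ∧ t ^ 3 = P := by
    refine ⟨P ^ ((1 : ℝ) / 3), Real.rpow_pos_of_pos hy _, ?_⟩
    rw [← Real.rpow_natCast, ← Real.rpow_mul hy.le]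
    norm_num
  refine ⟨fun i => t / |y i|, ?_, fun i => ?_⟩
  · rw [det_diagonal3]
    have e1 : t / |y 0| * (t / |y 1|) * (t / |y 2|) = t ^ 3 / P := by
      rw [hP, abs_mul, abs_mul]
      have := abs_pos.mpr h0
      have := abs_pos.mpr h1
      have := abs_pos.mpr h2
      field_simp
    rw [e1, ht]; exact div_self hy.ne'
  · have e2 : |t / |y i| * y i| = t := by
      have := abs_pos.mpr (hyi i)
      rw [abs_mul, abs_div, abs_abs, abs_of_pos ht0]
      field_simp
    rw [e2]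
    by_contra hcon
    push Not at hcon
    obtain ⟨k1, k2⟩ := max_lt_iff.mp hcon
    have : t ≤ t ^ 3 := by nlinarith [mul_pos ht0 ht0]
    linarith

/-- for a closed bounded orbit, only finitely many values are bounded by any constant -/
theorem finite_values {g : Mt} (hS : Bd (orbitSet g)) (c : ℝ) :
    {t : ℝ | ∃ v : Fin 3 → ℤ, v ≠ 0 ∧ prodForm g (cv v) = t ∧ |t| ≤ c}.Finite := by
  have hloc := loc_of_closed hS
  by_contra hinf
  have hinf' : {t : ℝ | ∃ v : Fin 3 → ℤ, v ≠ 0 ∧ prodForm g (cv v) = t ∧ |t| ≤ c}.Infinite := hinf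
  set t : ℕ → ℝ := fun n => (hinf'.natEmbedding _ n : ℝ) with ht
  have htinj : Function.Injective t := by
    intro a b hab
    exact (hinf'.natEmbedding _).injective (Subtype.ext hab)
  have htmem : ∀ n, ∃ v : Fin 3 → ℤ, v ≠ 0 ∧ prodForm g (cv v) = t n ∧ |t n| ≤ c :=
    fun n => (hinf'.natEmbedding _ n).2
  choose v hv0 hv1 hv2 using htmem
  obtain ⟨δ, hδ, hlow⟩ := hS.low
  obtain ⟨K, hK, hKS⟩ := hS.cpt
  have hg : g ∈ orbitSet g := mem_orbit_self g
  have hpf : ∀ n, prodForm g (cv (v n)) = (g *ᵥ cv (v n)) 0 * (g *ᵥ cv (v n)) 1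
      * (g *ᵥ cv (v n)) 2 := by
    intro n; unfold prodForm; rw [Fin.prod_univ_three]
  have hbal : ∀ n, ∃ a : Fin 3 → ℝ, (Matrix.diagonal a).det = 1 ∧
      ∀ i, |a i * (g *ᵥ cv (v n)) i| ≤ max c 1 := by
    intro n
    refine balance ?_ ?_
    · rw [← hpf]; exact hδ.trans_le (hlow g hg _ (hv0 n))
    · rw [← hpf, hv1 n]; exact hv2 n
  choose a ha1 ha2 using hbal
  choose γ hγ hγK using fun n => hKS _ (hS.left g hg (a n) (ha1 n))
  set F : Ultrafilter ℕ := hyperfilter ℕ with hF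
  set N : ℕ → Mt := fun n => Matrix.diagonal (a n) * g * ir (γ n) with hN
  obtain ⟨N0, hN0, hlim⟩ := ult_cpt F hK N (Eventually.of_forall hγK)
  have hNS : ∀ n, N n ∈ orbitSet g := fun n => hS.right _ (hS.left g hg (a n) (ha1 n)) _ (hγ n)
  have hN0S : N0 ∈ orbitSet g := hS.closed.mem_of_tendsto hlim (Eventually.of_forall hNS)
  set w : ℕ → Fin 3 → ℤ := fun n => (γ n).adjugate *ᵥ v n with hw
  have hγw : ∀ n, γ n *ᵥ w n = v n := by
    intro n
    rw [hw, mulVec_mulVec, mul_adj (hγ n), one_mulVec]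
  have hw0 : ∀ n, w n ≠ 0 := fun n => mulVec_ne (adj_det (hγ n)) (hv0 n)
  have hNw : ∀ n, N n *ᵥ cv (w n) = (Matrix.diagonal (a n) * g) *ᵥ cv (v n) := by
    intro n
    rw [hN]
    simp only
    rw [← mulVec_mulVec, ir_mulVec, hγw]
  obtain ⟨w0, hw0', hb, hev, hlim2⟩ := limit_vec F hlim (fun n => hS.det _ (hNS n))
    (hS.det _ hN0S) w hw0 (max c 1) (by
      intro n i
      rw [hNw, diag_mulVec]
      exact ha2 n i)
  obtain ⟨U, hU, hUloc⟩ := hloc N0 hN0S
  have hUev : ∀ᶠ n in (F : Filter ℕ), N n ∈ U := hlim hU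
  have hconst : ∀ᶠ n in (F : Filter ℕ), t n = prodForm N0 (cv w0) := by
    filter_upwards [hev, hUev] with n hn1 hn2
    obtain ⟨d, hd, hNd⟩ := hUloc (N n) (hNS n) hn2
    rw [← hv1 n, ← prodForm_diag (ha1 n)]
    have h1 : prodForm (Matrix.diagonal (a n) * g) (cv (v n)) = prodForm (N n) (cv (w n)) := by
      unfold prodForm
      rw [hNw]
    rw [h1, hn1, hNd, prodForm_diag hd]
  obtain ⟨n, hn⟩ := hconst.exists
  have hgt : ∀ᶠ m in (F : Filter ℕ), n + 1 ≤ m :=
    (Nat.hyperfilter_le_atTop) (eventually_ge_atTop (n + 1))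
  obtain ⟨m, hm1, hm2⟩ := (hconst.and hgt).exists
  have : n = m := htinj (by rw [hn, hm1])
  omega

/-- uniform recurrence: every point of the orbit closure has the point in its orbit closure -/
def Recurrent (h : Mt) : Prop := ∀ h' ∈ closure (orbitSet h), h ∈ closure (orbitSet h')

/-- some value is isolated -/
def HasIsolatedValue (h : Mt) : Prop :=
  ∃ v₀ : Fin 3 → ℤ, v₀ ≠ 0 ∧ ∃ ε : ℝ, 0 < ε ∧ ∀ v : Fin 3 → ℤ, v ≠ 0 →
    |prodForm h (cv v) - prodForm h (cv v₀)| < ε → prodForm h (cv v) = prodForm h (cv v₀)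

theorem closed_of_isolated {g h : Mt} (hS : Bd (closure (orbitSet g)))
    (hh : h ∈ closure (orbitSet g)) (hrec : Recurrent h) (hiso : HasIsolatedValue h) :
    IsClosed (orbitSet g) := by
  obtain ⟨hTS, hT⟩ := hS.closure_orbit hh
  set T := closure (orbitSet h) with hTdef
  have hmin : ∀ T', Bd T' → T' ⊆ T → T' = T := by
    intro T' hT' hsub
    refine Subset.antisymm hsub ?_
    obtain ⟨h', hh'⟩ := hT'.ne
    have h1 : closure (orbitSet h') ⊆ T' :=
      closure_minimal (orbit_subset hT'.left hT'.right hh') hT'.closed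
    have h2 : h ∈ T' := h1 (hrec h' (hsub hh'))
    exact closure_minimal (orbit_subset hT'.left hT'.right h2) hT'.closed
  obtain ⟨v₀, hv₀, ε, hε, hval⟩ := hiso
  set d0 := prodForm h (cv v₀) with hd0
  have hvalT : ∀ M ∈ T, ∀ v : Fin 3 → ℤ, v ≠ 0 → |prodForm M (cv v) - d0| < ε →
      prodForm M (cv v) = d0 := by
    intro M hM v hv hlt
    have h1 := value_limit hM hv
    by_contra hne
    -- a neighbourhood of the value containing no value of h
    set t := prodForm M (cv v) with ht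
    have hopen : IsOpen {s : ℝ | |s - d0| < ε ∧ s ≠ d0} :=
      (isOpen_lt ((continuous_id.sub continuous_const).abs) continuous_const).inter isOpen_ne
    obtain ⟨s, ⟨hs1, hs2⟩, w, hw, hws⟩ := mem_closure_iff.mp h1 _ hopen ⟨hlt, hne⟩
    exact hs2 (by rw [← hws]; exact hval w hw (by rw [hws]; exact hs1))
  set R : ℝ := ∑ i, |(h *ᵥ cv v₀) i| with hR
  have hO : IsOpen {M : Mt | |prodForm M (cv v₀) - d0| < ε ∧ ∀ i, |(M *ᵥ cv v₀) i| < R + 1} := by
    have h1 : IsOpen {M : Mt | |prodForm M (cv v₀) - d0| < ε} :=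
      isOpen_lt (((continuous_prodForm (cv v₀)).sub continuous_const).abs) continuous_const
    have h2 : IsOpen {M : Mt | ∀ i, |(M *ᵥ cv v₀) i| < R + 1} := by
      have : {M : Mt | ∀ i, |(M *ᵥ cv v₀) i| < R + 1}
          = ⋂ i, {M : Mt | |(M *ᵥ cv v₀) i| < R + 1} := by
        ext M; simp
      rw [this]
      refine isOpen_iInter_of_finite fun i => ?_
      exact isOpen_lt ((continuous_apply i).comp
        ((continuous_id (X := Mt)).matrix_mulVec continuous_const)).abs continuous_const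
    exact h1.inter h2
  have hhT : h ∈ T := subset_closure (mem_orbit_self h)
  obtain ⟨R', hR'⟩ := spread hT hmin (d0 := d0) (R := R + 1) hO hhT (by
    refine ⟨by rw [← hd0]; simpa using hε, fun i => ?_⟩
    have := Finset.single_le_sum (f := fun i => |(h *ᵥ cv v₀) i|) (fun _ _ => abs_nonneg _)
      (Finset.mem_univ i)
    linarith) (by
    intro M hM hMO
    exact ⟨v₀, hv₀, fun i => (hMO.2 i).le, hvalT M hM v₀ hv₀ hMO.1⟩)
  have hloc : Loc T := fun M hM => rigid hT hR' hM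
  have hcl : IsClosed (orbitSet h) := closed_of_local (by
    rw [← hTdef]; exact hloc)
  have hTeq : T = orbitSet h := hcl.closure_eq
  have hmem : h ∈ orbitSet g := isol hS hh hcl (by rw [← hTeq]; exact hloc)
  rw [← orbit_eq hmem]
  exact hcl

/-- values of a countable closed set met in bounded windows -/
theorem closed_of_windows {g h : Mt} (hS : Bd (closure (orbitSet g)))
    (hh : h ∈ closure (orbitSet g)) (R : ℝ) {D : Set ℝ} (hD : IsClosed D) (hDc : D.Countable)
    (hw : ∀ d : Fin 3 → ℝ, (Matrix.diagonal d).det = 1 → ∃ v : Fin 3 → ℤ, v ≠ 0 ∧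
      (∀ i, |((Matrix.diagonal d * h) *ᵥ cv v) i| ≤ R) ∧ prodForm h (cv v) ∈ D) :
    IsClosed (orbitSet g) := by
  obtain ⟨hTS, hT⟩ := hS.closure_orbit hh
  have hhd := hS.det h hh
  have hdet1 : IsClosed {M : Mt | M.det = 1} :=
    isClosed_eq (continuous_id.matrix_det) continuous_const
  have hclw := closed_window (T := {M : Mt | M.det = 1}) hdet1 (fun M hM => hM) (D := D) hD R
  have hsub : closure (orbitSet h) ⊆ {M : Mt | M ∈ {M : Mt | M.det = 1} ∧ ∃ v : Fin 3 → ℤ, v ≠ 0 ∧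
      (∀ i, |(M *ᵥ cv v) i| ≤ R) ∧ prodForm M (cv v) ∈ D} := by
    refine closure_minimal ?_ hclw
    intro M hM
    refine ⟨orbit_det hhd hM, ?_⟩
    obtain ⟨d, hd, γ, hγ, rfl⟩ := hM
    obtain ⟨v, hv, hv1, hv2⟩ := hw d hd
    have h1 : γ *ᵥ (γ.adjugate *ᵥ v) = v := by
      rw [mulVec_mulVec, mul_adj hγ, one_mulVec]
    refine ⟨γ.adjugate *ᵥ v, mulVec_ne (adj_det hγ) hv, ?_, ?_⟩
    · intro i
      have h2 : (Matrix.diagonal d * h * ir γ) *ᵥ cv (γ.adjugate *ᵥ v)
          = (Matrix.diagonal d * h) *ᵥ cv v := by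
        rw [← mulVec_mulVec, ir_mulVec, h1]
      change |((Matrix.diagonal d * h * ir γ) *ᵥ cv (γ.adjugate *ᵥ v)) i| ≤ R
      rw [h2]
      exact hv1 i
    · change prodForm (_ * h * ir γ) (cv (γ.adjugate *ᵥ v)) ∈ D
      rw [prodForm_ir, prodForm_diag hd, h1]
      exact hv2
  obtain ⟨k, hk, hcl, hloc⟩ := exists_closed_orbit hT hDc R (fun M hM => (hsub hM).2)
  have hmem := isol hS (hTS hk) hcl hloc
  rw [← orbit_eq hmem]
  exact hcl

theorem criteria {g : Mt} (hg : g.det = 1) (hb : BoundedOrbit g) :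
    List.TFAE [
      IsClosed (orbitSet g),
      ∀ c : ℝ, {t : ℝ | ∃ v : Fin 3 → ℤ, v ≠ 0 ∧ prodForm g (cv v) = t ∧ |t| ≤ c}.Finite,
      (closure {t : ℝ | ∃ v : Fin 3 → ℤ, v ≠ 0 ∧ prodForm g (cv v) = t ∧
        |t| ≤ 1 / 4}).Countable,
      ∃ h ∈ closure (orbitSet g), ∃ R : ℝ, ∃ D : Set ℝ, IsClosed D ∧ D.Countable ∧
        ∀ d : Fin 3 → ℝ, (Matrix.diagonal d).det = 1 → ∃ v : Fin 3 → ℤ, v ≠ 0 ∧
          (∀ i, |((Matrix.diagonal d * h) *ᵥ cv v) i| ≤ R) ∧ prodForm h (cv v) ∈ D,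
      ∃ h ∈ closure (orbitSet g), Recurrent h ∧ HasIsolatedValue h] := by
  have hS := closure_bd hg hb
  tfae_have 1 → 2 := by
    intro hcl c
    rw [hcl.closure_eq] at hS
    exact finite_values hS c
  tfae_have 2 → 3 := by
    intro h
    rw [(h (1 / 4)).isClosed.closure_eq]
    exact (h (1 / 4)).countable
  tfae_have 3 → 4 := by
    intro hc
    refine ⟨g, subset_closure (mem_orbit_self g), 37 / 20, _, isClosed_closure, hc, fun d hd => ?_⟩
    obtain ⟨v, hv, hv1, hv2⟩ := minkowski' (M := Matrix.diagonal d * g)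
      (by rw [det_mul, hd, hg, one_mul])
    rw [prodForm_diag hd] at hv2
    exact ⟨v, hv, hv1, subset_closure ⟨v, hv, rfl, hv2⟩⟩
  tfae_have 4 → 1 := by
    rintro ⟨h, hh, R, D, hD, hDc, hw⟩
    exact closed_of_windows hS hh R hD hDc hw
  tfae_have 5 → 1 := by
    rintro ⟨h, hh, hrec, hiso⟩
    exact closed_of_isolated hS hh hrec hiso
  tfae_have 1 → 5 := by
    intro hcl
    refine ⟨g, subset_closure (mem_orbit_self g), ?_, ?_⟩
    · intro h' hh'
      rw [hcl.closure_eq] at hh'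
      rw [orbit_eq hh']
      exact subset_closure (mem_orbit_self g)
    · have hS' := hS
      rw [hcl.closure_eq] at hS'
      have he1 : (![1, 0, 0] : Fin 3 → ℤ) ≠ 0 := by
        intro h
        have := congrFun h 0
        simp at this
      set t0 := prodForm g (cv ![1, 0, 0]) with ht0
      have hfin := finite_values hS' (|t0| + 1)
      have hfin2 := hfin.sdiff (t := {t0})
      have hnh : ({t : ℝ | ∃ v : Fin 3 → ℤ, v ≠ 0 ∧ prodForm g (cv v) = t ∧
          |t| ≤ |t0| + 1} \ {t0})ᶜ ∈ 𝓝 t0 :=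
        hfin2.isClosed.isOpen_compl.mem_nhds (by simp)
      obtain ⟨ε, hε, hball⟩ := Metric.mem_nhds_iff.mp hnh
      refine ⟨![1, 0, 0], he1, min ε 1, lt_min hε one_pos, fun v hv hlt => ?_⟩
      rw [← ht0] at hlt ⊢
      by_contra hne
      have h1 : prodForm g (cv v) ∈ Metric.ball t0 ε := by
        rw [Metric.mem_ball, Real.dist_eq]
        exact hlt.trans_le (min_le_left _ _)
      refine hball h1 ⟨⟨v, hv, rfl, ?_⟩, hne⟩
      have h2 : |prodForm g (cv v) - t0| < 1 := hlt.trans_le (min_le_right _ _)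
      have h3 := abs_sub_abs_le_abs_sub (prodForm g (cv v)) t0
      linarith
  tfae_finish

end M3C
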