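import Pool.Agent.M3C.NormRel

/-!
# Isolation: a bounded orbit whose closure contains a closed orbit is closed
-/

set_option autoImplicit false

open Matrix Filter Topology Set

namespace M3C

open Margulis3

/-- every point of a closed, locally rigid orbit has an integral automorph with three distinct
eigenvalues -/
theorem exists_auto {k : Mt} (hT : Bd (orbitSet k)) (hloc : Loc (orbitSet k)) :
    ∃ γ : Matrix (Fin 3) (Fin 3) ℤ, ∃ c : Fin 3 → ℝ, Function.Injective c ∧
      k * ir γ = Matrix.diagonal c * k := by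
  obtain ⟨K, hK, hKT⟩ := hT.cpt
  set α : ℕ → Fin 3 → ℝ := fun n => ![2 ^ n, 1, (2 ^ n)⁻¹] with hα
  have hαdet : ∀ n, (Matrix.diagonal (α n)).det = 1 := by
    intro n
    rw [det_diagonal3]
    simp [hα]
  have hMn : ∀ n, Matrix.diagonal (α n) * k ∈ orbitSet k :=
    fun n => orbit_left (mem_orbit_self k) (hαdet n)
  choose γ hγ hγK using fun n => hKT _ (hMn n)
  set N : ℕ → Mt := fun n => Matrix.diagonal (α n) * k * ir (γ n) with hN
  have hNT : ∀ n, N n ∈ orbitSet k := fun n => orbit_right (hMn n) (hγ n)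
  set F : Ultrafilter ℕ := hyperfilter ℕ with hF
  obtain ⟨k', hk', hlim⟩ := ult_cpt F hK N (Eventually.of_forall hγK)
  have hk'T : k' ∈ orbitSet k := hT.closed.mem_of_tendsto hlim (Eventually.of_forall hNT)
  have hk'd := hT.det k' hk'T
  obtain ⟨U, hU, hUloc⟩ := hloc k' hk'T
  set b : ℕ → Fin 3 → ℝ := fun n i => (N n * k'⁻¹) i i with hb
  have hblim : ∀ i, Tendsto (fun n => b n i) F (𝓝 1) := by
    intro i
    have h1 := tendsto_mul' hlim (tendsto_const_nhds (x := k'⁻¹))
    rw [mul_inv_one hk'd] at h1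
    have := tendsto_entry h1 i i
    rwa [Matrix.one_apply_eq] at this
  have hbeq : ∀ᶠ n in (F : Filter ℕ), N n = Matrix.diagonal (b n) * k' := by
    have h1 : ∀ᶠ n in (F : Filter ℕ), N n ∈ U := hlim hU
    filter_upwards [h1] with n hn
    obtain ⟨d, hd, hNd⟩ := hUloc (N n) (hNT n) hn
    have h2 : b n = d := by
      funext i
      simp only [hb]
      rw [hNd, mul_assoc, mul_inv_one hk'd, mul_one, Matrix.diagonal_apply_eq]
    rw [h2, ← hNd]
  have hbnear : ∀ᶠ n in (F : Filter ℕ), ∀ i, |b n i - 1| < 1 / 10 := by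
    rw [eventually_all]
    intro i
    have := (Metric.tendsto_nhds.mp (hblim i)) (1 / 10) (by norm_num)
    simpa [Real.dist_eq] using this
  obtain ⟨n, hn1, hn2⟩ := (hbeq.and hbnear).exists
  have hgt : ∀ᶠ m in (F : Filter ℕ), n + 1 ≤ m :=
    (Nat.hyperfilter_le_atTop) (eventually_ge_atTop (n + 1))
  obtain ⟨m, ⟨hm1, hm2⟩, hnm⟩ := ((hbeq.and hbnear).and hgt).exists
  have hbn : ∀ i, 9 / 10 < b n i ∧ b n i < 11 / 10 := by
    intro i
    have := abs_lt.mp (hn2 i)
    constructor <;> linarith [this.1, this.2]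
  have hbm : ∀ i, 9 / 10 < b m i ∧ b m i < 11 / 10 := by
    intro i
    have := abs_lt.mp (hm2 i)
    constructor <;> linarith [this.1, this.2]
  have hbn0 : ∀ i, b n i ≠ 0 := fun i => by linarith [(hbn i).1]
  have hαne : ∀ n i, α n i ≠ 0 := fun n i => diag_ne (hαdet n) i
  set c : Fin 3 → ℝ := fun i => (α m i)⁻¹ * (b m i * ((b n i)⁻¹ * α n i)) with hc
  refine ⟨γ m * (γ n).adjugate, c, ?_, ?_⟩
  · -- the eigenvalues are distinct
    have hr : ∀ i, 9 / 11 < b m i * (b n i)⁻¹ ∧ b m i * (b n i)⁻¹ < 11 / 9 := by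
      intro i
      have h1 : 0 < b n i := by linarith [(hbn i).1]
      rw [← div_eq_mul_inv]
      constructor
      · rw [lt_div_iff₀ h1]; linarith [(hbn i).2, (hbm i).1]
      · rw [div_lt_iff₀ h1]; linarith [(hbn i).1, (hbm i).2]
    obtain ⟨j, rfl⟩ : ∃ j, m = n + 1 + j := ⟨m - (n + 1), by omega⟩
    have hpow : (2 : ℝ) ^ (n + 1 + j) = 2 ^ n * (2 * 2 ^ j) := by ring
    have h2j : (1 : ℝ) ≤ 2 ^ j := one_le_pow₀ (by norm_num)
    have h2n : (0 : ℝ) < 2 ^ n := by positivity
    set s : ℝ := 2 * 2 ^ j with hs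
    have hs2 : 2 ≤ s := by linarith
    have c0 : c 0 = (b (n + 1 + j) 0 * (b n 0)⁻¹) / s := by
      simp only [hc, hα, Matrix.cons_val_zero]
      rw [hpow]; field_simp
    have c1 : c 1 = b (n + 1 + j) 1 * (b n 1)⁻¹ := by
      simp only [hc, hα, Matrix.cons_val_one, Matrix.cons_val_zero]
      ring
    have c2 : c 2 = (b (n + 1 + j) 2 * (b n 2)⁻¹) * s := by
      simp only [hc, hα, Matrix.cons_val]
      rw [hpow]; field_simp
    have d0 : c 0 < 9 / 11 := by
      rw [c0, div_lt_iff₀ (by linarith)]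
      nlinarith [(hr 0).2]
    have d1 : 9 / 11 < c 1 ∧ c 1 < 11 / 9 := by rw [c1]; exact hr 1
    have d2 : 11 / 9 < c 2 := by
      rw [c2]
      nlinarith [(hr 2).1]
    intro i i' hii
    fin_cases i <;> fin_cases i' <;> simp only [Fin.zero_eta, Fin.mk_one, Fin.reduceFinMk] at hii ⊢ <;>
      exfalso <;> linarith [d1.1, d1.2]
  · have h1 : Matrix.diagonal (α m) * k * ir (γ m)
        = Matrix.diagonal (b m) * (Matrix.diagonal (fun i => (b n i)⁻¹) *
          (Matrix.diagonal (α n) * k * ir (γ n))) := by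
      have e1 : Matrix.diagonal (α m) * k * ir (γ m) = Matrix.diagonal (b m) * k' := hm1
      have e2 : Matrix.diagonal (α n) * k * ir (γ n) = Matrix.diagonal (b n) * k' := hn1
      rw [e1, e2, ← mul_assoc (Matrix.diagonal (fun i => (b n i)⁻¹)), diagonal_mul_diagonal]
      have : (Matrix.diagonal fun i => (b n i)⁻¹ * b n i) = (1 : Mt) := by
        rw [← diagonal_one]
        congr 1; funext i; simp [hbn0 i]
      rw [this, one_mul]
    obtain ⟨i1, i2, i3⟩ := diag_inv (hαdet m)
    have h2 : k * ir (γ m) = Matrix.diagonal c * k * ir (γ n) := by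
      have e1 : k * ir (γ m) = Matrix.diagonal (fun i => (α m i)⁻¹) *
          (Matrix.diagonal (α m) * k * ir (γ m)) := by
        rw [← mul_assoc, ← mul_assoc, i2, one_mul]
      rw [e1, h1]
      have e2 : Matrix.diagonal c = Matrix.diagonal (fun i => (α m i)⁻¹) *
          (Matrix.diagonal (b m) * (Matrix.diagonal (fun i => (b n i)⁻¹) *
            Matrix.diagonal (α n))) := by
        rw [diagonal_mul_diagonal, diagonal_mul_diagonal, diagonal_mul_diagonal]
      rw [e2]
      simp only [mul_assoc]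
    rw [ir_mul, ← mul_assoc, h2, mul_assoc, ir_mul_adj (hγ n), mul_one]

/-- comparison of two product forms at integer points extends to real points -/
lemma real_of_int {N k : Mt} {lam : ℝ}
    (h : ∀ v : Fin 3 → ℤ, prodForm N (cv v) = lam * prodForm k (cv v)) (x : Fin 3 → ℝ) :
    prodForm N x = lam * prodForm k x := by
  set P : Mt := Matrix.diagonal ![lam, 1, 1] * k with hP
  have hPx : ∀ x, prodForm P x = lam * prodForm k x := by
    intro x
    unfold prodForm
    simp only [hP, diag_mulVec]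
    rw [Fin.prod_univ_three, Fin.prod_univ_three]
    simp only [Matrix.cons_val_zero, Matrix.cons_val_one, Matrix.cons_val]
    ring
  have conv : ∀ a b c : ℤ, cv ![a, b, c] = ![(a : ℝ), (b : ℝ), (c : ℝ)] := by
    intro a b c
    funext j
    fin_cases j <;> rfl
  have key : ∀ a b c : ℤ, prodForm N ![(a : ℝ), (b : ℝ), (c : ℝ)]
      = prodForm P ![(a : ℝ), (b : ℝ), (c : ℝ)] := by
    intro a b c
    rw [hPx, ← conv]
    exact h _
  rw [← hPx]
  have k1 := key 1 0 0
  have k2 := key 0 1 0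
  have k3 := key 0 0 1
  have k4 := key 1 1 0
  have k5 := key 1 (-1) 0
  have k6 := key 1 0 1
  have k7 := key 1 0 (-1)
  have k8 := key 0 1 1
  have k9 := key 0 1 (-1)
  have k10 := key 1 1 1
  push_cast at k1 k2 k3 k4 k5 k6 k7 k8 k9 k10
  exact prodForm_determined N P k1 k2 k3 k4 k5 k6 k7 k8 k9 k10 x

lemma unip_trivial {u : Mt} {lam : ℝ} (h00 : u 0 0 = 1) (h11 : u 1 1 = 1) (h22 : u 2 2 = 1)
    (h10 : u 1 0 = 0) (h20 : u 2 0 = 0) (h21 : u 2 1 = 0)
    (h : ∀ y : Fin 3 → ℝ, prodForm u y = lam * (y 0 * y 1 * y 2)) :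
    u 0 1 = 0 ∧ u 1 2 = 0 ∧ u 0 2 = 0 := by
  have e1 := h ![1, 0, 1]
  have e2 := h ![-1, 0, 1]
  have e3 := h ![0, 1, 1]
  have e4 := h ![0, 1, -1]
  simp only [prodForm_eq, Matrix.cons_val_zero, Matrix.cons_val_one, Matrix.cons_val,
    h00, h11, h22, h10, h20, h21] at e1 e2 e3 e4
  have hy : u 1 2 = 0 := by linarith
  rw [hy] at e3 e4
  refine ⟨?_, hy, ?_⟩ <;> linarith

theorem isol {g h : Mt} (hS : Bd (closure (orbitSet g))) (hh : h ∈ closure (orbitSet g))
    (hcl : IsClosed (orbitSet h)) (hloc : Loc (orbitSet h)) : h ∈ orbitSet g := by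
  by_contra hno
  obtain ⟨Ms, hMs, hlim0⟩ := mem_closure_iff_seq_limit.mp hh
  have hT : Bd (orbitSet h) := by
    have := (hS.closure_orbit hh).2
    rwa [hcl.closure_eq] at this
  have hTS : orbitSet h ⊆ closure (orbitSet g) := orbit_subset hS.left hS.right hh
  have hhd := hS.det h hh
  set F : Ultrafilter ℕ := hyperfilter ℕ with hF
  have hlim : Tendsto Ms F (𝓝 h) := hlim0.mono_left Nat.hyperfilter_le_atTop
  have hMsS : ∀ n, Ms n ∈ closure (orbitSet g) := fun n => subset_closure (hMs n)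
  set G : ℕ → Mt := fun n => Ms n * h⁻¹ with hGdef
  have hG1 : Tendsto G F (𝓝 1) := by
    have h1 := tendsto_mul' hlim (tendsto_const_nhds (x := h⁻¹))
    rwa [mul_inv_one hhd] at h1
  have hGdet : ∀ n, (G n).det = 1 := by
    intro n
    simp only [hGdef]
    rw [det_mul, hS.det _ (hMsS n), det_inv_one hhd, one_mul]
  have hGM : ∀ n, G n * h = Ms n := by
    intro n
    simp only [hGdef]
    rw [mul_assoc, inv_mul_one hhd, mul_one]
  -- a permutation of the coordinates putting a nonzero entry in position (0,2)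
  have hperm : ∀ k l : Fin 3, k ≠ l → ∃ e : Equiv.Perm (Fin 3), e 0 = k ∧ e 2 = l := by decide
  have hex : ∀ n, ∃ e : Equiv.Perm (Fin 3), G n (e 0) (e 2) ≠ 0 := by
    intro n
    by_contra hcon
    push Not at hcon
    have h2 : ∀ i j, i ≠ j → G n i j = 0 := by
      intro i j hij
      obtain ⟨e, he0, he2⟩ := hperm i j hij
      have := hcon e
      rwa [he0, he2] at this
    obtain ⟨h3, h4⟩ := diag_of_off (hGdet n) h2
    obtain ⟨i1, i2, i3⟩ := diag_inv h4
    apply hno
    have h5 : h = Matrix.diagonal (fun i => (G n i i)⁻¹) * Ms n := by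
      have h6 : Matrix.diagonal (fun i => (G n i i)⁻¹) * G n = 1 := by
        calc Matrix.diagonal (fun i => (G n i i)⁻¹) * G n
            = Matrix.diagonal (fun i => (G n i i)⁻¹) * Matrix.diagonal (fun i => G n i i) :=
              congrArg _ h3
          _ = 1 := i2
      rw [← hGM n, ← mul_assoc, h6, one_mul]
    rw [h5]
    exact orbit_left (hMs n) i1
  choose es hes using hex
  obtain ⟨e, -, he⟩ := ult_fin F es Set.univ Set.finite_univ (Eventually.of_forall fun _ => mem_univ _)
  have hP02 : ∀ᶠ n in (F : Filter ℕ), G n (e 0) (e 2) ≠ 0 := by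
    filter_upwards [he] with n hn
    rw [← hn]; exact hes n
  set μ : ℕ → ℝ := fun n => max (max |G n (e 0) (e 1)| |G n (e 1) (e 2)|) (√|G n (e 0) (e 2)|)
    with hμ
  have hμpos : ∀ᶠ n in (F : Filter ℕ), 0 < μ n := by
    filter_upwards [hP02] with n hn
    exact lt_max_of_lt_right (Real.sqrt_pos.mpr (abs_pos.mpr hn))
  have he01 : e 0 ≠ e 1 := fun h => absurd (e.injective h) (by decide)
  have he12 : e 1 ≠ e 2 := fun h => absurd (e.injective h) (by decide)
  have he02 : e 0 ≠ e 2 := fun h => absurd (e.injective h) (by decide)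
  have hoff : ∀ i j, i ≠ j → Tendsto (fun n => G n i j) F (𝓝 0) := by
    intro i j hij
    have := tendsto_entry hG1 i j
    rwa [Matrix.one_apply_ne hij] at this
  have hdia : ∀ i, Tendsto (fun n => G n i i) F (𝓝 1) := by
    intro i
    have := tendsto_entry hG1 i i
    rwa [Matrix.one_apply_eq] at this
  have hμ0 : Tendsto μ F (𝓝 0) := by
    have h1 := (((hoff _ _ he01).abs.max (hoff _ _ he12).abs).max
      (Real.continuous_sqrt.continuousAt.tendsto.comp (hoff _ _ he02).abs))
    simp only [abs_zero, Real.sqrt_zero, max_self] at h1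
    exact h1
  -- the scaled matrices
  set t : ℕ → ℝ := fun n => (μ n)⁻¹ with ht
  set α : ℕ → Fin 3 → ℝ := fun n => ![t n, 1, μ n] with hα
  set Q : ℕ → Mt := fun n => Matrix.of fun i j => α n i * (α n j)⁻¹ * G n (e i) (e j) with hQ
  have hlow : ∀ i j, Tendsto (fun n => μ n * G n i j) F (𝓝 (0 * (1 : Mt) i j)) := fun i j =>
    hμ0.mul (tendsto_entry hG1 i j)
  have hQ00 : Tendsto (fun n => Q n 0 0) F (𝓝 1) := by
    refine (hdia (e 0)).congr' ?_
    filter_upwards [hμpos] with n hn
    simp only [hQ, hα, ht, Matrix.of_apply, Matrix.cons_val_zero]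
    field_simp
  have hQ11 : Tendsto (fun n => Q n 1 1) F (𝓝 1) := by
    refine (hdia (e 1)).congr' ?_
    filter_upwards [hμpos] with n hn
    simp [hQ, hα]
  have hQ22 : Tendsto (fun n => Q n 2 2) F (𝓝 1) := by
    refine (hdia (e 2)).congr' ?_
    filter_upwards [hμpos] with n hn
    simp only [hQ, hα, Matrix.of_apply, Matrix.cons_val]
    field_simp
  have hQ10 : Tendsto (fun n => Q n 1 0) F (𝓝 0) := by
    have h1 := hlow (e 1) (e 0)
    rw [zero_mul] at h1
    refine h1.congr' ?_
    filter_upwards [hμpos] with n hn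
    simp [hQ, hα, ht]
  have hQ21 : Tendsto (fun n => Q n 2 1) F (𝓝 0) := by
    have h1 := hlow (e 2) (e 1)
    rw [zero_mul] at h1
    refine h1.congr' ?_
    filter_upwards [hμpos] with n hn
    simp [hQ, hα]
  have hQ20 : Tendsto (fun n => Q n 2 0) F (𝓝 0) := by
    have h1 := hμ0.mul (hlow (e 2) (e 0))
    rw [zero_mul] at h1
    refine h1.congr' ?_
    filter_upwards [hμpos] with n hn
    simp [hQ, hα, ht]
    ring
  have hQ01 : ∀ᶠ n in (F : Filter ℕ), Q n 0 1 = t n * G n (e 0) (e 1) := by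
    filter_upwards [hμpos] with n hn
    simp [hQ, hα]
  have hQ12 : ∀ᶠ n in (F : Filter ℕ), Q n 1 2 = t n * G n (e 1) (e 2) := by
    filter_upwards [hμpos] with n hn
    simp [hQ, hα, ht]
  have hQ02 : ∀ᶠ n in (F : Filter ℕ), Q n 0 2 = t n ^ 2 * G n (e 0) (e 2) := by
    filter_upwards [hμpos] with n hn
    simp only [hQ, hα, ht, Matrix.of_apply, Matrix.cons_val_zero, Matrix.cons_val]
    ring
  have hmaxQ : ∀ᶠ n in (F : Filter ℕ), max (max |Q n 0 1| |Q n 1 2|) (√|Q n 0 2|) = 1 := by
    filter_upwards [hμpos, hQ01, hQ12, hQ02] with n hn h1 h2 h3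
    have htn : 0 < t n := inv_pos.mpr hn
    rw [h1, h2, h3, abs_mul, abs_mul, abs_mul, abs_of_pos htn, abs_of_pos (by positivity : 0 < t n ^ 2),
      Real.sqrt_mul (by positivity), Real.sqrt_sq htn.le, ← mul_max_of_nonneg _ _ htn.le,
      ← mul_max_of_nonneg _ _ htn.le]
    exact inv_mul_cancel₀ hn.ne'
  obtain ⟨x, hx, hxl⟩ := ult_lim F (fun n => Q n 0 1) 1 (by
    filter_upwards [hmaxQ] with n hn
    rw [← hn]; exact le_max_of_le_left (le_max_left _ _))
  obtain ⟨y, hy, hyl⟩ := ult_lim F (fun n => Q n 1 2) 1 (by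
    filter_upwards [hmaxQ] with n hn
    rw [← hn]; exact le_max_of_le_left (le_max_right _ _))
  obtain ⟨z, hz, hzl⟩ := ult_lim F (fun n => Q n 0 2) 1 (by
    filter_upwards [hmaxQ] with n hn
    have h1 : √|Q n 0 2| ≤ 1 := by rw [← hn]; exact le_max_right _ _
    rw [Real.sqrt_le_left (by norm_num)] at h1
    simpa using h1)
  have hmax : max (max |x| |y|) (√|z|) = 1 := by
    have h1 := (hxl.abs.max hyl.abs).max (Real.continuous_sqrt.continuousAt.tendsto.comp hzl.abs)
    refine tendsto_nhds_unique h1 ?_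
    exact tendsto_const_nhds.congr' (by filter_upwards [hmaxQ] with n hn; exact hn.symm)
  set u : Mt := !![1, x, z; 0, 1, y; 0, 0, 1] with hu
  have hQu : Tendsto Q F (𝓝 u) := by
    refine tendsto_pi_nhds.mpr fun i => tendsto_pi_nhds.mpr fun j => ?_
    fin_cases i <;> fin_cases j
    · exact hQ00
    · exact hxl
    · exact hzl
    · exact hQ10
    · exact hQ11
    · exact hyl
    · exact hQ20
    · exact hQ21
    · exact hQ22
  -- back to the original coordinates
  set U : Mt := u.submatrix e.symm e.symm with hU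
  have hXU : Tendsto (fun n => (Q n).submatrix e.symm e.symm) F (𝓝 U) := by
    have hc : Continuous (fun P : Mt => P.submatrix e.symm e.symm) :=
      continuous_id.matrix_submatrix _ _
    exact (hc.tendsto u).comp hQu
  set a : ℕ → Fin 3 → ℝ := fun n i => α n (e.symm i) with ha
  have hadet : ∀ᶠ n in (F : Filter ℕ), (Matrix.diagonal (a n)).det = 1 := by
    filter_upwards [hμpos] with n hn
    rw [det_diagonal]
    simp only [ha]
    rw [Equiv.prod_comp e.symm (fun i => α n i), Fin.prod_univ_three]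
    simp only [hα, ht, Matrix.cons_val_zero, Matrix.cons_val_one, Matrix.cons_val]
    field_simp
  have hX : ∀ᶠ n in (F : Filter ℕ), Matrix.diagonal (a n) * Ms n
      = (Q n).submatrix e.symm e.symm * (Matrix.diagonal (a n) * h) := by
    filter_upwards [hadet] with n hn
    have hane := diag_ne hn
    have h1 : Matrix.diagonal (a n) * G n = (Q n).submatrix e.symm e.symm * Matrix.diagonal (a n) := by
      ext i j
      rw [diagonal_mul, mul_diagonal]
      simp only [hQ, Matrix.submatrix_apply, Matrix.of_apply, Equiv.apply_symm_apply, ha]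
      have := hane j
      simp only [ha] at this
      field_simp
    rw [← hGM n, ← mul_assoc, h1, mul_assoc]
  obtain ⟨K, hK, hKT⟩ := hT.cpt
  have hγex : ∀ n, ∃ γ : Matrix (Fin 3) (Fin 3) ℤ, γ.det = 1 ∧
      ((Matrix.diagonal (a n)).det = 1 → Matrix.diagonal (a n) * h * ir γ ∈ K) := by
    intro n
    by_cases hn : (Matrix.diagonal (a n)).det = 1
    · obtain ⟨γ, h1, h2⟩ := hKT _ (orbit_left (mem_orbit_self h) hn)
      exact ⟨γ, h1, fun _ => h2⟩
    · exact ⟨1, det_one, fun h => absurd h hn⟩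
  choose γ hγ hγK using hγex
  obtain ⟨k, hk, hklim⟩ := ult_cpt F hK (fun n => Matrix.diagonal (a n) * h * ir (γ n)) (by
    filter_upwards [hadet] with n hn
    exact hγK n hn)
  have hkT : k ∈ orbitSet h := by
    refine hcl.mem_of_tendsto hklim ?_
    filter_upwards [hadet] with n hn
    exact orbit_right (orbit_left (mem_orbit_self h) hn) (hγ n)
  have hUkS : U * k ∈ closure (orbitSet g) := by
    refine isClosed_closure.mem_of_tendsto (tendsto_mul' hXU hklim) ?_
    filter_upwards [hadet, hX] with n hn hn2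
    have h1 : (Q n).submatrix e.symm e.symm * (Matrix.diagonal (a n) * h * ir (γ n))
        = Matrix.diagonal (a n) * Ms n * ir (γ n) := by
      rw [hn2]; simp only [mul_assoc]
    rw [h1]
    exact hS.right _ (hS.left _ (hMsS n) _ hn) _ (hγ n)
  have hkS := hTS hkT
  have horb := orbit_eq hkT
  obtain ⟨β, c, hcinj, hkβ⟩ := exists_auto (k := k) (by rw [horb]; exact hT) (by rw [horb]; exact hloc)
  obtain ⟨δ, hδ, hlowδ⟩ := hS.low
  have hrow : (U * k) (e 2) = k (e 2) := by
    funext j
    rw [Matrix.mul_apply, Finset.sum_eq_single (e 2)]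
    · simp [hU, hu]
    · intro i _ hi
      have h1 : e.symm i ≠ 2 := by
        intro h; apply hi; rw [← h]; simp
      have h2 : U (e 2) i = u 2 (e.symm i) := by simp [hU]
      rw [h2]
      have h3 : ∀ i : Fin 3, i ≠ 2 → u 2 i = 0 := by
        intro i hi
        fin_cases i
        · rfl
        · rfl
        · exact absurd rfl hi
      rw [h3 _ h1, zero_mul]
    · intro h; exact absurd (Finset.mem_univ _) h
  obtain ⟨lam, hlam⟩ := norm_rel hcinj hkβ (hS.det k hkS) (hS.det _ hUkS) hδ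
    (fun v hv => hlowδ k hkS v hv) (fun v hv => hlowδ _ hUkS v hv) (e 2) hrow
  have hreal := real_of_int hlam
  have hkd := hS.det k hkS
  have hUy : ∀ y : Fin 3 → ℝ, prodForm U y = lam * ∏ i, y i := by
    intro y
    have h1 : U * k * k⁻¹ = U := by rw [mul_assoc, mul_inv_one hkd, mul_one]
    have h2 : prodForm U y = prodForm (U * k) (k⁻¹ *ᵥ y) := by
      rw [← prodForm_mul, h1]
    rw [h2, hreal, ← prodForm_mul, mul_inv_one hkd]
    unfold prodForm
    rw [one_mulVec]
  have huy : ∀ y : Fin 3 → ℝ, prodForm u y = lam * (y 0 * y 1 * y 2) := by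
    intro y
    have h1 := hUy (y ∘ e.symm)
    have h2 : prodForm U (y ∘ e.symm) = prodForm u y := by
      unfold prodForm
      have h3 : ∀ i, (U *ᵥ (y ∘ e.symm)) i = (u *ᵥ y) (e.symm i) := by
        intro i
        simp only [mulVec, dotProduct, hU, Matrix.submatrix_apply, Function.comp]
        exact Equiv.sum_comp e.symm (fun j => u (e.symm i) j * y j)
      simp only [h3]
      exact Equiv.prod_comp e.symm (fun i => (u *ᵥ y) i)
    rw [h2] at h1
    rw [h1]
    congr 1
    have h4 : ∏ i, (y ∘ e.symm) i = ∏ i, y i := Equiv.prod_comp e.symm y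
    rw [h4, Fin.prod_univ_three]
  obtain ⟨r1, r2, r3⟩ := unip_trivial (u := u) rfl rfl rfl rfl rfl rfl huy
  have x0 : x = 0 := r1
  have y0 : y = 0 := r2
  have z0 : z = 0 := r3
  rw [x0, y0, z0] at hmax
  simp at hmax

end M3C
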