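import Pool.Agent.M3C.Rigid

/-!
# Minimal invariant sets, Baire category, and closed orbits
-/

set_option autoImplicit false

open Matrix Filter Topology Set

namespace M3C

open Margulis3

lemma Bd.sub {S T : Set Mt} (hS : Bd S) (hT : IsClosed T) (hne : T.Nonempty) (hsub : T ⊆ S)
    (hl : ∀ M ∈ T, ∀ d : Fin 3 → ℝ, (Matrix.diagonal d).det = 1 → Matrix.diagonal d * M ∈ T)
    (hr : ∀ M ∈ T, ∀ γ : Matrix (Fin 3) (Fin 3) ℤ, γ.det = 1 → M * ir γ ∈ T) : Bd T := by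
  refine ⟨hT, hne, fun M hM => hS.det M (hsub hM), hl, hr, ?_, ?_⟩
  · obtain ⟨K, hK, h⟩ := hS.cpt
    exact ⟨K, hK, fun M hM => h M (hsub hM)⟩
  · obtain ⟨δ, hδ, h⟩ := hS.low
    exact ⟨δ, hδ, fun M hM => h M (hsub hM)⟩

lemma Bd.closure_orbit {S : Set Mt} (hS : Bd S) {h : Mt} (hh : h ∈ S) :
    closure (orbitSet h) ⊆ S ∧ Bd (closure (orbitSet h)) := by
  have h1 : closure (orbitSet h) ⊆ S := closure_minimal (orbit_subset hS.left hS.right hh) hS.closed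
  exact ⟨h1, hS.sub isClosed_closure ⟨h, subset_closure (mem_orbit_self h)⟩ h1
    (fun M hM d hd => closure_left hM hd) (fun M hM γ hγ => closure_right hM hγ)⟩

/-- minimal invariant sets exist -/
theorem exists_minimal {S : Set Mt} (hS : Bd S) :
    ∃ T ⊆ S, Bd T ∧ ∀ T', Bd T' → T' ⊆ T → T' = T := by
  obtain ⟨T, hTS, hT⟩ := zorn_superset_nonempty {T : Set Mt | Bd T ∧ T ⊆ S} (by
    intro c hc hchain hne
    obtain ⟨K, hK, hKS⟩ := hS.cpt
    have hcB : ∀ T ∈ c, Bd T := fun T hT => (hc hT).1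
    have hcS : ∀ T ∈ c, T ⊆ S := fun T hT => (hc hT).2
    obtain ⟨T0, hT0⟩ := hne
    have : Nonempty c := ⟨⟨T0, hT0⟩⟩
    have hint : (⋂ T : c, (T : Set Mt) ∩ K).Nonempty := by
      refine IsCompact.nonempty_iInter_of_directed_nonempty_isCompact_isClosed _ ?_ ?_ ?_ ?_
      · intro A B
        rcases hchain.total A.2 B.2 with h | h
        · exact ⟨A, Subset.rfl, inter_subset_inter_left _ h⟩
        · exact ⟨B, inter_subset_inter_left _ h, Subset.rfl⟩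
      · intro A
        obtain ⟨M, hM⟩ := (hcB A A.2).ne
        obtain ⟨γ, hγ, hk⟩ := hKS M (hcS A A.2 hM)
        exact ⟨M * ir γ, (hcB A A.2).right M hM γ hγ, hk⟩
      · intro A
        exact hK.inter_left (hcB A A.2).closed
      · intro A
        exact (hcB A A.2).closed.inter hK.isClosed
    obtain ⟨M0, hM0⟩ := hint
    rw [mem_iInter] at hM0
    have hsub : ⋂₀ c ⊆ S := fun M hM => hcS T0 hT0 (hM T0 hT0)
    refine ⟨⋂₀ c, ⟨?_, hsub⟩, fun T hT => sInter_subset_of_mem hT⟩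
    refine hS.sub (isClosed_sInter fun T hT => (hcB T hT).closed) ⟨M0, ?_⟩ hsub ?_ ?_
    · intro T hT
      exact (hM0 ⟨T, hT⟩).1
    · intro M hM d hd T hT
      exact (hcB T hT).left M (hM T hT) d hd
    · intro M hM γ hγ T hT
      exact (hcB T hT).right M (hM T hT) γ hγ) S ⟨hS, Subset.rfl⟩
  refine ⟨T, hTS, hT.prop.1, fun T' hT' hsub => ?_⟩
  exact Subset.antisymm hsub (hT.le_of_le ⟨hT', hsub.trans hTS⟩ hsub)

/-- limits of bounded images of integer vectors -/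
lemma limit_vec (F : Ultrafilter ℕ) {Ms : ℕ → Mt} {M : Mt} (hlim : Tendsto Ms F (𝓝 M))
    (hd : ∀ n, (Ms n).det = 1) (hM : M.det = 1) (v : ℕ → Fin 3 → ℤ) (hv : ∀ n, v n ≠ 0) (R : ℝ)
    (hb : ∀ n i, |(Ms n *ᵥ cv (v n)) i| ≤ R) :
    ∃ v0 : Fin 3 → ℤ, v0 ≠ 0 ∧ (∀ i, |(M *ᵥ cv v0) i| ≤ R) ∧
      (∀ᶠ n in (F : Filter ℕ), v n = v0) ∧
      Tendsto (fun n => prodForm (Ms n) (cv (v n))) F (𝓝 (prodForm M (cv v0))) := by
  obtain ⟨y, hy, hylim⟩ := ult_lim_vec F (fun n => Ms n *ᵥ cv (v n)) (fun _ => R)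
    (Eventually.of_forall fun n i => hb n i)
  have hinv := tendsto_inv hlim (Eventually.of_forall hd) hM
  have h2 := tendsto_mulVec hinv hylim
  have h3 : (fun n => (Ms n)⁻¹ *ᵥ (Ms n *ᵥ cv (v n))) = fun n => cv (v n) := by
    funext n
    rw [mulVec_mulVec, inv_mul_one (hd n), one_mulVec]
  rw [h3] at h2
  obtain ⟨v0, hv0'⟩ := ult_vec_lim F v _ h2
  refine ⟨v0, ?_, ?_, hv0', ?_⟩
  · obtain ⟨n, hn⟩ := hv0'.exists
    rw [← hn]; exact hv n
  · intro i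
    have h5 : Tendsto (fun n => |(Ms n *ᵥ cv v0) i|) F (𝓝 |(M *ᵥ cv v0) i|) :=
      ((tendsto_pi_nhds.mp (tendsto_mulVec (F := F) hlim
        (tendsto_const_nhds (x := cv v0)))) i).abs
    refine le_of_tendsto h5 ?_
    filter_upwards [hv0'] with n hn
    have h7 := hb n i
    rw [hn] at h7
    exact h7
  · have h5 : Tendsto (fun n => prodForm (Ms n) (cv v0)) F (𝓝 (prodForm M (cv v0))) :=
      ((continuous_prodForm (cv v0)).tendsto M).comp hlim
    refine h5.congr' ?_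
    filter_upwards [hv0'] with n hn
    rw [hn]

/-- attaining a value of a closed set in a bounded window is a closed condition -/
lemma closed_window {T : Set Mt} (hT : IsClosed T) (hdet : ∀ M ∈ T, M.det = 1) {D : Set ℝ}
    (hD : IsClosed D) (R : ℝ) :
    IsClosed {M : Mt | M ∈ T ∧ ∃ v : Fin 3 → ℤ, v ≠ 0 ∧ (∀ i, |(M *ᵥ cv v) i| ≤ R) ∧
      prodForm M (cv v) ∈ D} := by
  have hseq : SequentialSpace Mt := inferInstanceAs (SequentialSpace (Fin 3 → Fin 3 → ℝ))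
  rw [← isSeqClosed_iff_isClosed]
  intro Ms M hMs hlim0
  have hMT : M ∈ T := hT.isSeqClosed (fun n => (hMs n).1) hlim0
  refine ⟨hMT, ?_⟩
  choose v hv0 hv1 hv2 using fun n => (hMs n).2
  set F : Ultrafilter ℕ := hyperfilter ℕ with hF
  have hlim : Tendsto Ms F (𝓝 M) := hlim0.mono_left Nat.hyperfilter_le_atTop
  obtain ⟨v0, h0, h1, h2, h3⟩ := limit_vec F hlim (fun n => hdet _ (hMs n).1) (hdet M hMT) v hv0 R hv1
  exact ⟨v0, h0, h1, hD.mem_of_tendsto h3 (Eventually.of_forall hv2)⟩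

/-- spreading a value over a minimal set -/
lemma spread {T : Set Mt} (hT : Bd T) (hmin : ∀ T', Bd T' → T' ⊆ T → T' = T) {d0 R : ℝ}
    {O : Set Mt} (hO : IsOpen O) {M1 : Mt} (hM1 : M1 ∈ T) (hM1O : M1 ∈ O)
    (H : ∀ M ∈ T, M ∈ O → ∃ v : Fin 3 → ℤ, v ≠ 0 ∧ (∀ i, |(M *ᵥ cv v) i| ≤ R) ∧
      prodForm M (cv v) = d0) :
    ∃ R' : ℝ, ∀ M ∈ T, ∃ v : Fin 3 → ℤ, v ≠ 0 ∧ (∀ i, |(M *ᵥ cv v) i| ≤ R') ∧
      prodForm M (cv v) = d0 := by
  by_contra hcon
  push Not at hcon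
  choose Ms hMs hbad using fun n : ℕ => hcon n
  obtain ⟨K, hK, hKT⟩ := hT.cpt
  choose γ hγ hγK using fun n => hKT _ (hMs n)
  set F : Ultrafilter ℕ := hyperfilter ℕ with hF
  obtain ⟨N, hN, hNlim⟩ := ult_cpt F hK (fun n => Ms n * ir (γ n)) (Eventually.of_forall hγK)
  have hNs : ∀ n, Ms n * ir (γ n) ∈ T := fun n => hT.right _ (hMs n) _ (hγ n)
  have hNT : N ∈ T := hT.closed.mem_of_tendsto hNlim (Eventually.of_forall hNs)
  obtain ⟨hsub, hBd⟩ := hT.closure_orbit hNT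
  have heq := hmin _ hBd hsub
  have hM1' : M1 ∈ closure (orbitSet N) := by rw [heq]; exact hM1
  obtain ⟨N', hN'O, a, ha, β, hβ, hN'⟩ := mem_closure_iff.mp hM1' O hO hM1O
  have hc : Continuous (fun P : Mt => Matrix.diagonal a * P * ir β) :=
    (Continuous.matrix_mul continuous_const continuous_id).matrix_mul continuous_const
  have hlimO : ∀ᶠ n in (F : Filter ℕ), Matrix.diagonal a * (Ms n * ir (γ n)) * ir β ∈ O := by
    have h1 := (hc.tendsto N).comp hNlim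
    refine h1 (hO.mem_nhds ?_)
    rw [hN'] at hN'O
    exact hN'O
  have hane := diag_ne ha
  obtain ⟨B, hB⟩ : ∃ B : ℕ, ∀ i, R / |a i| ≤ B := by
    obtain ⟨B, hB⟩ := exists_nat_ge (∑ i, |R / (|a i|)|)
    refine ⟨B, fun i => le_trans (le_abs_self _) (le_trans ?_ hB)⟩
    exact Finset.single_le_sum (f := fun i => |R / (|a i|)|) (fun _ _ => abs_nonneg _)
      (Finset.mem_univ i)
  have hge : ∀ᶠ n in (F : Filter ℕ), B ≤ n :=
    (Nat.hyperfilter_le_atTop) (eventually_ge_atTop B)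
  obtain ⟨n, hn1, hn2⟩ := (hlimO.and hge).exists
  obtain ⟨v, hv0, hv1, hv2⟩ := H _ (hT.right _ (hT.left _ (hNs n) a ha) β hβ) hn1
  have hw : ∀ P : Mt, P * ir (γ n) * ir β * ir 1 = P * ir (γ n * β) := by
    intro P
    rw [ir_one, mul_one, ir_mul, mul_assoc]
  have hmv : (Matrix.diagonal a * (Ms n * ir (γ n)) * ir β) *ᵥ cv v
      = (Matrix.diagonal a * Ms n) *ᵥ cv ((γ n * β) *ᵥ v) := by
    rw [← ir_mulVec, mulVec_mulVec, ir_mul]
    simp only [mul_assoc]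
  have hγβ : (γ n * β).det = 1 := by rw [det_mul, hγ n, hβ, one_mul]
  refine hbad n ((γ n * β) *ᵥ v) (mulVec_ne hγβ hv0) ?_ ?_
  · intro i
    have h1 := hv1 i
    rw [hmv, diag_mulVec, abs_mul] at h1
    have h2 : |(Ms n *ᵥ cv ((γ n * β) *ᵥ v)) i| ≤ R / |a i| := by
      rw [le_div_iff₀ (abs_pos.mpr (hane i)), mul_comm]; exact h1
    exact h2.trans ((hB i).trans (by exact_mod_cast hn2))
  · have h1 : prodForm (Matrix.diagonal a * (Ms n * ir (γ n)) * ir β) (cv v)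
        = prodForm (Matrix.diagonal a * Ms n) (cv ((γ n * β) *ᵥ v)) := by
      unfold prodForm
      rw [hmv]
    rw [h1, prodForm_diag ha] at hv2
    exact hv2

lemma closed_of_local {g : Mt}
    (h : ∀ M ∈ closure (orbitSet g), ∃ U ∈ 𝓝 M, ∀ N ∈ closure (orbitSet g), N ∈ U →
      ∃ d : Fin 3 → ℝ, (Matrix.diagonal d).det = 1 ∧ N = Matrix.diagonal d * M) :
    IsClosed (orbitSet g) := by
  refine isClosed_of_closure_subset fun M hM => ?_
  obtain ⟨U, hU, hloc⟩ := h M hM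
  obtain ⟨N, hNU, hN⟩ := mem_closure_iff_nhds.mp hM U hU
  obtain ⟨d, hd, hNd⟩ := hloc N (subset_closure hN) hNU
  obtain ⟨h1, h2, h3⟩ := diag_inv hd
  have h4 : M = Matrix.diagonal (fun i => (d i)⁻¹) * N := by
    rw [hNd, ← mul_assoc, h2, one_mul]
  rw [h4]
  exact orbit_left hN h1

/-- local rigidity of a set -/
def Loc (T : Set Mt) : Prop :=
  ∀ M ∈ T, ∃ U ∈ 𝓝 M, ∀ N ∈ T, N ∈ U → ∃ d : Fin 3 → ℝ, (Matrix.diagonal d).det = 1 ∧
    N = Matrix.diagonal d * M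

theorem exists_closed_orbit {S : Set Mt} (hS : Bd S) {D : Set ℝ} (hD : D.Countable) (R : ℝ)
    (H : ∀ M ∈ S, ∃ v : Fin 3 → ℤ, v ≠ 0 ∧ (∀ i, |(M *ᵥ cv v) i| ≤ R) ∧
      prodForm M (cv v) ∈ D) :
    ∃ h ∈ S, IsClosed (orbitSet h) ∧ Loc (orbitSet h) := by
  obtain ⟨T, hTS, hT, hmin⟩ := exists_minimal hS
  -- Baire category
  have : Countable D := hD.to_subtype
  have : LocallyCompactSpace T := hT.closed.isClosedEmbedding_subtypeVal.locallyCompactSpace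
  have : Nonempty T := hT.ne.to_subtype
  set C : D → Set T := fun d => {M : T | ∃ v : Fin 3 → ℤ, v ≠ 0 ∧
    (∀ i, |((M : Mt) *ᵥ cv v) i| ≤ R) ∧ prodForm (M : Mt) (cv v) = (d : ℝ)} with hC
  have hCc : ∀ d, IsClosed (C d) := by
    intro d
    have h1 := (closed_window hT.closed hT.det (isClosed_singleton (x := (d : ℝ))) R).preimage
      (continuous_subtype_val (p := fun M => M ∈ T))
    convert h1 using 1
    ext M
    simp only [hC, mem_preimage, mem_ofPred_eq, mem_singleton_iff]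
    exact ⟨fun h => ⟨M.2, h⟩, fun h => h.2⟩
  have hCu : ⋃ d, C d = univ := by
    rw [eq_univ_iff_forall]
    intro M
    obtain ⟨v, h0, h1, h2⟩ := H M (hTS M.2)
    rw [mem_iUnion]
    exact ⟨⟨_, h2⟩, v, h0, h1, rfl⟩
  obtain ⟨d, M1, hM1⟩ := nonempty_interior_of_iUnion_of_closed hCc hCu
  obtain ⟨O', hO'sub, hO'open, hM1O'⟩ := mem_interior.mp hM1
  obtain ⟨O, hO, hOO'⟩ := isOpen_induced_iff.mp hO'open
  obtain ⟨R', hR'⟩ := spread hT hmin (d0 := (d : ℝ)) (R := R) hO M1.2 (by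
    have : M1 ∈ Subtype.val ⁻¹' O := by rw [hOO']; exact hM1O'
    exact this) (by
    intro M hM hMO
    have : (⟨M, hM⟩ : T) ∈ O' := by rw [← hOO']; exact hMO
    exact hO'sub this)
  obtain ⟨h, hh⟩ := hT.ne
  obtain ⟨hsub, hBd⟩ := hT.closure_orbit hh
  have heq := hmin _ hBd hsub
  have hloc : Loc T := fun M hM => rigid hT hR' hM
  have hcl : IsClosed (orbitSet h) := closed_of_local (by
    rw [heq]; exact hloc)
  refine ⟨h, hTS hh, hcl, ?_⟩
  rw [hcl.closure_eq] at heq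
  rw [heq]; exact hloc

end M3C
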