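import Pool.Agent.Margulis3.Main

/-!
# Forms with a row in a cubic field are multiples of the norm form (after Margulis3.main_lemma)
-/

set_option autoImplicit false
open Filter Topology Matrix Module NumberField

namespace M3C

open Margulis3

variable {K : Type*} [Field K] [NumberField K]

theorem norm_form (h3 : finrank ℚ K = 3) (τ0 : K →+* ℝ) (k : Fin 3 → K) (c : ℝ)
    (g : Matrix (Fin 3) (Fin 3) ℝ) (h0 : ∀ j, g 0 j = c * τ0 (k j)) (hg : g.det ≠ 0)
    (δ : ℝ) (hδ : 0 < δ)
    (H : ∀ v : Fin 3 → ℤ, v ≠ 0 → δ ≤ |prodForm g (fun j => (v j : ℝ))|) :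
    ∃ C : ℝ, ∀ v : Fin 3 → ℤ, prodForm g (fun j => (v j : ℝ)) =
        C * ((Algebra.norm ℚ (∑ j, (v j : K) * k j) : ℚ) : ℝ) := by
  classical
  -- linear independence
  have hli : LinearIndependent ℚ k := by
    rw [← LinearIndependent.iff_fractionRing ℤ ℚ, Fintype.linearIndependent_iff]
    intro v hv
    by_contra hcon
    have hv0 : v ≠ 0 := by
      rintro rfl
      exact hcon fun i => rfl
    have h1 := H v hv0
    have h2 : (g *ᵥ (fun j => (v j : ℝ))) 0 = 0 := by
      have h3 : (g *ᵥ (fun j => (v j : ℝ))) 0 = c * τ0 (∑ j, v j • k j) := by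
        simp only [mulVec, dotProduct]
        rw [map_sum, Finset.mul_sum]
        refine Finset.sum_congr rfl fun j _ => ?_
        rw [h0, map_zsmul, zsmul_eq_mul]
        ring
      rw [h3, hv, map_zero, mul_zero]
    have h3 : prodForm g (fun j => (v j : ℝ)) = 0 := by
      rw [prodForm]
      exact Finset.prod_eq_zero (Finset.mem_univ 0) h2
    rw [h3, abs_zero] at h1
    linarith
  obtain ⟨D, hD0, hD⟩ := common_denom h3 k hli
  have hDr : (D : ℝ) ≠ 0 := by exact_mod_cast hD0
  have hDK : (D : K) ≠ 0 := by exact_mod_cast hD0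
  -- embeddings
  obtain ⟨σ, hinj, hσ0⟩ := exists_sigma h3 ((algebraMap ℝ ℂ).comp τ0)
  have hσ0' : ∀ y, σ 0 y = (τ0 y : ℂ) := fun y => by rw [hσ0]; rfl
  have hc0 : ComplexEmbedding.conjugate (σ 0) = σ 0 := by
    ext y
    rw [ComplexEmbedding.conjugate_coe_eq, hσ0']
    exact Complex.conj_ofReal _
  have hspan : ∀ f : K →+ ℂ, (∀ j (q : ℚ), f (q • k j) = 0) → ∀ y, f y = 0 := by
    intro f hf y
    set B := basisOfLinearIndependentOfCardEqFinrank hli (by rw [h3]; rfl) with hB
    have hBk : ∀ j, B j = k j := fun j => by simp [hB]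
    rw [← B.sum_repr y, map_sum]
    refine Finset.sum_eq_zero fun j _ => ?_
    rw [hBk]
    exact hf j _
  have hind : ∀ x : Fin 3 → ℂ, (∀ j, ∑ i, x i * σ i (k j) = 0) → x = 0 := by
    intro x hx
    refine dedekind σ hinj x fun y => ?_
    have hadd : ∀ a b : K, ∑ i, x i * σ i (a + b) = ∑ i, x i * σ i a + ∑ i, x i * σ i b := by
      intro a b
      rw [← Finset.sum_add_distrib]
      exact Finset.sum_congr rfl fun i _ => by rw [map_add, mul_add]
    refine hspan (AddMonoidHom.mk' (fun y => ∑ i, x i * σ i y) hadd) ?_ y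
    intro j q
    change ∑ i, x i * σ i (q • k j) = 0
    have : ∀ i, x i * σ i (q • k j) = (q : ℂ) * (x i * σ i (k j)) := by
      intro i
      rw [Algebra.smul_def, map_mul]
      have : σ i (algebraMap ℚ K q) = (q : ℂ) := by simp
      rw [this]; ring
    simp only [this]
    rw [← Finset.mul_sum, hx, mul_zero]
  have hcases : ComplexEmbedding.conjugate (σ 1) = σ 1 ∨
      ComplexEmbedding.conjugate (σ 1) = σ 2 := by
    obtain ⟨i, hi⟩ := (univ_eq h3 σ hinj).2 (ComplexEmbedding.conjugate (σ 1))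
    fin_cases i
    · exfalso
      have h1 : σ 1 = σ 0 := by
        have := congrArg ComplexEmbedding.conjugate hi
        simp only [ComplexEmbedding.involutive_conjugate K (σ 1)] at this
        rw [← this]; exact hc0
      exact absurd (hinj h1) (by decide)
    · left; exact hi.symm
    · right; exact hi.symm
  -- general scaling of lower bound
  have hlow : ∀ (ρ : Fin 3 → (K →+ ℝ)) (a b d a' b' d' : ℝ), (∀ v : Fin 3 → ℤ,
      prodForm g (fun j => (v j : ℝ)) =
        c * ρ 0 (∑ j, (v j : K) * k j) * (a * ρ 0 (∑ j, (v j : K) * k j)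
          + b * ρ 1 (∑ j, (v j : K) * k j) + d * ρ 2 (∑ j, (v j : K) * k j))
        * (a' * ρ 0 (∑ j, (v j : K) * k j)
          + b' * ρ 1 (∑ j, (v j : K) * k j) + d' * ρ 2 (∑ j, (v j : K) * k j))) →
      ∀ y : 𝓞 K, y ≠ 0 → δ / |(D : ℝ)| ^ 3 ≤ |c * ρ 0 y * (a * ρ 0 y + b * ρ 1 y + d * ρ 2 y)
        * (a' * ρ 0 y + b' * ρ 1 y + d' * ρ 2 y)| := by
    intro ρ a b d a' b' d' hv y hy
    obtain ⟨v, hvD⟩ := hD y
    have hv0 : v ≠ 0 := by
      rintro rfl
      simp at hvD
      rcases hvD with h | h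
      · exact hD0 h
      · exact hy h
    have h1 := H v hv0
    rw [hv v, hvD] at h1
    have h2 : ∀ m, ρ m ((D : K) * (y : K)) = D * ρ m y := by
      intro m
      rw [← zsmul_eq_mul, map_zsmul, zsmul_eq_mul]
    rw [h2, h2, h2] at h1
    have h4 : c * (D * ρ 0 y) * (a * (D * ρ 0 y) + b * (D * ρ 1 y) + d * (D * ρ 2 y))
        * (a' * (D * ρ 0 y) + b' * (D * ρ 1 y) + d' * (D * ρ 2 y))
        = D ^ 3 * (c * ρ 0 y * (a * ρ 0 y + b * ρ 1 y + d * ρ 2 y)
        * (a' * ρ 0 y + b' * ρ 1 y + d' * ρ 2 y)) := by ring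
    rw [h4, abs_mul, abs_pow] at h1
    rw [div_le_iff₀ (by positivity), mul_comm]
    exact h1
  have hδ' : 0 < δ / |(D : ℝ)| ^ 3 := by positivity
  rcases hcases with hre | hco
  · -- real case
    have hc2 : ComplexEmbedding.conjugate (σ 2) = σ 2 := by
      obtain ⟨i, hi⟩ := (univ_eq h3 σ hinj).2 (ComplexEmbedding.conjugate (σ 2))
      have h5 : ComplexEmbedding.conjugate (σ i) = σ 2 := by
        rw [hi]; exact ComplexEmbedding.involutive_conjugate K (σ 2)
      fin_cases i
      · exfalso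
        have h1 : σ 0 = σ 2 := by rw [← h5]; exact hc0.symm
        exact absurd (hinj h1) (by decide)
      · exfalso
        have h1 : σ 1 = σ 2 := by rw [← h5]; exact hre.symm
        exact absurd (hinj h1) (by decide)
      · exact hi.symm
    have hreal : ∀ i, ComplexEmbedding.IsReal (σ i) := by
      intro i
      rw [ComplexEmbedding.isReal_iff]
      fin_cases i
      · exact hc0
      · exact hre
      · exact hc2
    let Dt : RealData K :=
      { h3 := h3
        σ := σ
        hinj := hinj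
        τ := fun i => (hreal i).embedding
        hστ := fun i y => ((hreal i).coe_embedding_apply y).symm }
    have hτ0 : ∀ y, Dt.τ 0 y = τ0 y := by
      intro y
      have h1 := Dt.hστ 0 y
      have h2 : Dt.σ 0 y = (τ0 y : ℂ) := hσ0' y
      rw [h2] at h1
      exact_mod_cast h1.symm
    set ρ : Fin 3 → (K →+ ℝ) := fun i => (Dt.τ i).toAddMonoidHom with hρ
    have hρτ : ∀ i y, ρ i y = Dt.τ i y := fun _ _ => rfl
    have hP : (Matrix.of fun m j => ρ m (k j)).det ≠ 0 := by
      intro hdet
      rw [← Matrix.exists_vecMul_eq_zero_iff] at hdet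
      obtain ⟨x, hx0, hx⟩ := hdet
      apply hx0
      have h1 := hind (fun i => (x i : ℂ)) (fun j => by
        have h2 := congrFun hx j
        simp only [vecMul, dotProduct, Matrix.of_apply, Pi.zero_apply] at h2
        have h6 : ∀ i, σ i (k j) = ((ρ i (k j) : ℝ) : ℂ) := fun i => Dt.hστ i (k j)
        simp only [h6]
        exact_mod_cast h2)
      funext i
      have h9 : (x i : ℂ) = 0 := congrFun h1 i
      exact Complex.ofReal_eq_zero.mp h9
    obtain ⟨a, b, d, a', b', d', hdet, hv⟩ := change_basis ρ k g c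
      (fun j => by rw [h0, hρτ, hτ0]) hg hP
    obtain ⟨C, hC⟩ := real_case Dt c a b d a' b' d' _ hδ' hdet (hlow ρ a b d a' b' d' hv)
    have hF : ∀ v : Fin 3 → ℤ, prodForm g (fun j => (v j : ℝ)) =
        C * ((Algebra.norm ℚ (∑ j, (v j : K) * k j) : ℚ) : ℝ) := by
      intro v
      rw [hv v]
      have h1 := hC (∑ j, (v j : K) * k j)
      simp only [hρτ]
      rw [h1]
      congr 1
      have h2 := norm_eq h3 σ hinj (∑ j, (v j : K) * k j)
      have h6 : ∀ i, σ i (∑ j, (v j : K) * k j) = ((Dt.τ i (∑ j, (v j : K) * k j) : ℝ) : ℂ) :=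
        fun i => Dt.hστ i _
      rw [h6, h6, h6] at h2
      exact_mod_cast h2.symm
    exact ⟨C, hF⟩
  · -- complex case
    exfalso
    set ρ : Fin 3 → (K →+ ℝ) := ![τ0.toAddMonoidHom,
      Complex.reAddGroupHom.comp (σ 1).toAddMonoidHom,
      Complex.imAddGroupHom.comp (σ 1).toAddMonoidHom] with hρ
    have hρ0 : ∀ y, ρ 0 y = τ0 y := fun _ => rfl
    have hρ1 : ∀ y, ρ 1 y = (σ 1 y).re := fun _ => rfl
    have hρ2 : ∀ y, ρ 2 y = (σ 1 y).im := fun _ => rfl
    have hP : (Matrix.of fun m j => ρ m (k j)).det ≠ 0 := by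
      intro hdet
      rw [← Matrix.exists_vecMul_eq_zero_iff] at hdet
      obtain ⟨x, hx0, hx⟩ := hdet
      apply hx0
      have h1 := hind ![(x 0 : ℂ), ((x 1 : ℂ) - (x 2 : ℂ) * Complex.I) / 2,
        ((x 1 : ℂ) + (x 2 : ℂ) * Complex.I) / 2] (fun j => by
        have h2 := congrFun hx j
        simp only [vecMul, dotProduct, Matrix.of_apply, Pi.zero_apply, Fin.sum_univ_three] at h2
        rw [hρ0, hρ1, hρ2] at h2
        rw [Fin.sum_univ_three]
        simp only [Matrix.cons_val_zero, Matrix.cons_val_one, Matrix.cons_val]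
        rw [← hco, ComplexEmbedding.conjugate_coe_eq, hσ0']
        apply Complex.ext
        · simp
          linarith
        · simp
          ring)
      have e0 := congrFun h1 0
      have e1 := congrFun h1 1
      simp only [Matrix.cons_val_zero, Matrix.cons_val_one, Pi.zero_apply] at e0 e1
      have e2 := congrArg Complex.re e1
      have e3 := congrArg Complex.im e1
      simp at e0 e2 e3
      funext i
      fin_cases i
      · exact e0
      · exact e2
      · exact e3
    obtain ⟨a, b, d, a', b', d', hdet, hv⟩ := change_basis ρ k g c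
      (fun j => by rw [h0, hρ0]) hg hP
    exact complex_case h3 σ hinj τ0 hσ0' hco c a b d a' b' d' _ hδ'
      (hlow ρ a b d a' b' d' hv)


end M3C
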