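import Pool.Agent.M3C.Minimal
import Pool.Agent.M3C.NormForm

/-!
# Matrices with an integral automorph: cubic fields, and comparison of forms sharing a row
-/

set_option autoImplicit false

open Matrix Filter Topology Set Module NumberField

namespace M3C

open Margulis3

/-- a rational eigenvector of the automorph is impossible -/
lemma no_rational_eigen {k : Mt} {γ : Matrix (Fin 3) (Fin 3) ℤ} {c : Fin 3 → ℝ}
    (hc : Function.Injective c) (hk : k * ir γ = Matrix.diagonal c * k)
    {δ : ℝ} (hδ : 0 < δ) (hkl : ∀ v : Fin 3 → ℤ, v ≠ 0 → δ ≤ |prodForm k (cv v)|)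
    (q : ℚ) (w : Fin 3 → ℚ) (hw : w ≠ 0)
    (h : (γ.map (fun z : ℤ => (z : ℚ))) *ᵥ w = q • w) : False := by
  obtain ⟨⟨D, hD⟩, hDi⟩ := IsLocalization.exist_integer_multiples_of_finite
      (nonZeroDivisors ℤ) w
  have hD0 : D ≠ 0 := nonZeroDivisors.ne_zero hD
  have h2 : ∀ j, ∃ n : ℤ, (n : ℚ) = D * w j := by
    intro j
    obtain ⟨n, hn⟩ := hDi j
    refine ⟨n, ?_⟩
    rw [show ((n : ℤ) : ℚ) = algebraMap ℤ ℚ n from rfl, hn]
    simp [Algebra.smul_def]
  choose v hv using h2
  have hDq : (D : ℚ) ≠ 0 := by exact_mod_cast hD0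
  have hv0 : v ≠ 0 := by
    intro h0
    apply hw
    funext j
    have := hv j
    rw [h0] at this
    simp at this
    rcases this with h1 | h1
    · exact absurd h1 hD0
    · exact h1
  have hγv : ∀ i, ((γ *ᵥ v) i : ℚ) = q * v i := by
    intro i
    have h1 := congrFun h i
    simp only [mulVec, dotProduct, Matrix.map_apply, Pi.smul_apply, smul_eq_mul] at h1
    have h3 : ((γ *ᵥ v) i : ℚ) = ∑ j, (γ i j : ℚ) * (v j : ℚ) := by
      simp only [mulVec, dotProduct]
      push_cast
      rfl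
    rw [h3, hv i]
    have h4 : ∀ j, (γ i j : ℚ) * (v j : ℚ) = D * ((γ i j : ℚ) * w j) := by
      intro j; rw [hv j]; ring
    simp only [h4]
    rw [← Finset.mul_sum, h1]; ring
  have hγr : ir γ *ᵥ cv v = (q : ℝ) • cv v := by
    rw [ir_mulVec]
    funext i
    simp only [cv, Pi.smul_apply, smul_eq_mul]
    have := hγv i
    have h5 : (((γ *ᵥ v) i : ℚ) : ℝ) = ((q * v i : ℚ) : ℝ) := by rw [this]
    push_cast at h5
    exact h5
  have h6 : ∀ i, (c i - q) * (k *ᵥ cv v) i = 0 := by
    intro i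
    have h7 : (k * ir γ) *ᵥ cv v = (Matrix.diagonal c * k) *ᵥ cv v := by rw [hk]
    rw [← mulVec_mulVec, hγr, mulVec_smul] at h7
    have h8 := congrFun h7 i
    rw [diag_mulVec] at h8
    simp only [Pi.smul_apply, smul_eq_mul] at h8
    linear_combination -h8
  obtain ⟨i, hi⟩ : ∃ i, c i ≠ q := by
    by_contra hcon
    push Not at hcon
    have : c 0 = c 1 := by rw [hcon 0, hcon 1]
    exact absurd (hc this) (by decide)
  have h9 : (k *ᵥ cv v) i = 0 := by
    rcases mul_eq_zero.mp (h6 i) with h | h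
    · exact absurd (by linarith) hi
    · exact h
  have h10 : prodForm k (cv v) = 0 := Finset.prod_eq_zero (Finset.mem_univ i) h9
  have h11 := hkl v hv0
  rw [h10, abs_zero] at h11
  linarith

lemma prodForm_perm (e : Equiv.Perm (Fin 3)) (M : Mt) (x : Fin 3 → ℝ) :
    prodForm (M.submatrix e id) x = prodForm M x := by
  unfold prodForm
  have h1 : ∀ i, (M.submatrix e id *ᵥ x) i = (M *ᵥ x) (e i) := fun i => rfl
  simp only [h1]
  exact Equiv.prod_comp e (fun i => (M *ᵥ x) i)

lemma det_perm_ne (e : Equiv.Perm (Fin 3)) {M : Mt} (h : M.det = 1) :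
    (M.submatrix e id).det ≠ 0 := by
  rw [Matrix.det_permute]
  rw [h, mul_one]
  intro h0
  rcases Int.units_eq_one_or (Equiv.Perm.sign e) with h1 | h1 <;> rw [h1] at h0 <;> simp at h0

theorem norm_rel {k N : Mt} {γ : Matrix (Fin 3) (Fin 3) ℤ} {c : Fin 3 → ℝ}
    (hc : Function.Injective c) (hk : k * ir γ = Matrix.diagonal c * k) (hkd : k.det = 1)
    (hNd : N.det = 1) {δ : ℝ} (hδ : 0 < δ)
    (hkl : ∀ v : Fin 3 → ℤ, v ≠ 0 → δ ≤ |prodForm k (cv v)|)
    (hNl : ∀ v : Fin 3 → ℤ, v ≠ 0 → δ ≤ |prodForm N (cv v)|) (l : Fin 3) (hrow : N l = k l) :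
    ∃ lam : ℝ, ∀ v : Fin 3 → ℤ, prodForm N (cv v) = lam * prodForm k (cv v) := by
  set θ : ℝ := c l with hθ
  set γQ : Matrix (Fin 3) (Fin 3) ℚ := γ.map (fun z : ℤ => (z : ℚ)) with hγQ
  set p := γQ.charpoly with hp
  have hpm : p.Monic := charpoly_monic γQ
  have hpdeg : p.natDegree = 3 := by rw [hp, charpoly_natDegree_eq_dim]; rfl
  have hroot : ∀ q : ℚ, ¬ p.IsRoot q := by
    intro q hq
    rw [Polynomial.IsRoot, hp, Matrix.eval_charpoly, ← exists_mulVec_eq_zero_iff] at hq
    obtain ⟨w, hw0, hw⟩ := hq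
    refine no_rational_eigen hc hk hδ hkl q w hw0 ?_
    rw [sub_mulVec, sub_eq_zero] at hw
    rw [← hγQ, ← hw]
    simp [Matrix.scalar_apply, ← smul_one_eq_diagonal, smul_mulVec]
  have hirr : Irreducible p := Polynomial.irreducible_of_degree_le_three_of_not_isRoot
    (by rw [hpdeg]; decide) hroot
  -- the row is an eigenvector
  have hrowl : (k l) ᵥ* ir γ = θ • (k l) := by
    funext j
    have h1 := congrFun (congrFun hk l) j
    rw [diagonal_mul] at h1
    exact h1
  have hkl0 : k l ≠ 0 := by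
    intro h0
    have : k.det = 0 := det_eq_zero_of_row_eq_zero l (fun j => congrFun h0 j)
    rw [this] at hkd; norm_num at hkd
  have hdetθ : (Matrix.scalar (Fin 3) θ - ir γ).det = 0 := by
    rw [← exists_vecMul_eq_zero_iff]
    refine ⟨k l, hkl0, ?_⟩
    rw [vecMul_sub, hrowl, sub_eq_zero]
    simp [Matrix.scalar_apply, ← smul_one_eq_diagonal, vecMul_smul]
  have haeval : Polynomial.aeval θ p = 0 := by
    have h1 : Polynomial.eval θ (p.map (algebraMap ℚ ℝ)) = 0 := by
      rw [hp, ← Matrix.charpoly_map, Matrix.eval_charpoly]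
      have h2 : γQ.map (algebraMap ℚ ℝ) = ir γ := by
        ext i j
        simp [hγQ, ir]
      have h3 : (algebraMap ℚ ℝ).mapMatrix γQ = ir γ := h2
      first
        | rw [h2]; exact hdetθ
        | rw [h3]; exact hdetθ
    rw [Polynomial.aeval_def, ← Polynomial.eval_map]
    exact h1
  have hmin : p = minpoly ℚ θ := minpoly.eq_of_irreducible_of_monic hirr haeval hpm
  have hint : IsIntegral ℚ θ := ⟨p, hpm, by rw [← Polynomial.aeval_def]; exact haeval⟩
  haveI : FiniteDimensional ℚ (IntermediateField.adjoin ℚ {θ}) :=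
    IntermediateField.adjoin.finiteDimensional hint
  haveI : NumberField (IntermediateField.adjoin ℚ {θ}) := { }
  have h3 : finrank ℚ (IntermediateField.adjoin ℚ {θ}) = 3 := by
    rw [IntermediateField.adjoin.finrank hint, ← hmin, hpdeg]
  set K := IntermediateField.adjoin ℚ {θ} with hK
  set τ0 : K →+* ℝ := algebraMap K ℝ with hτ0
  set θK : K := IntermediateField.AdjoinSimple.gen ℚ θ with hθK
  have hθτ : τ0 θK = θ := IntermediateField.AdjoinSimple.algebraMap_gen ℚ θ
  set γK : Matrix (Fin 3) (Fin 3) K := γ.map (fun z : ℤ => (z : K)) with hγK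
  have hmapγ : τ0.mapMatrix γK = ir γ := by
    ext i j
    simp [hγK, ir]
  have hdetK : (Matrix.scalar (Fin 3) θK - γK).det = 0 := by
    apply τ0.injective
    rw [map_zero, RingHom.map_det, map_sub, hmapγ]
    have h4 : τ0.mapMatrix (Matrix.scalar (Fin 3) θK) = Matrix.scalar (Fin 3) θ := by
      ext i j
      by_cases hij : i = j
      · subst hij; simp [hθτ]
      · simp [hij]
    rw [h4]; exact hdetθ
  rw [← exists_vecMul_eq_zero_iff] at hdetK
  obtain ⟨κ, hκ0, hκ⟩ := hdetK
  rw [vecMul_sub, sub_eq_zero] at hκ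
  set r : Fin 3 → ℝ := fun j => τ0 (κ j) with hr
  have hr0 : r ≠ 0 := by
    intro h0
    apply hκ0
    funext j
    have := congrFun h0 j
    simp only [hr, Pi.zero_apply] at this
    exact (map_eq_zero τ0).mp this
  have hrγ : r ᵥ* ir γ = θ • r := by
    funext j
    have h4 := congrArg τ0 (congrFun hκ j)
    simp only [vecMul, dotProduct, map_sum, map_mul, Pi.smul_apply, smul_eq_mul] at h4 ⊢
    have h5 : ∀ i, τ0 (γK i j) = ir γ i j := by
      intro i
      rw [← hmapγ]; rfl
    simp only [h5] at h4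
    rw [← h4]
    rw [Finset.sum_eq_single j]
    · simp [hr, hθτ, mul_comm]
    · intro i _ hij
      simp [hij]
    · intro h; exact absurd (Finset.mem_univ j) h
  set s := r ᵥ* k⁻¹ with hs
  have hsk : s ᵥ* k = r := by
    rw [hs, vecMul_vecMul, inv_mul_one hkd, vecMul_one]
  have hsi : ∀ i, i ≠ l → s i = 0 := by
    intro i hi
    have h4 : s ᵥ* Matrix.diagonal c = θ • s := by
      have h5 : (s ᵥ* Matrix.diagonal c) ᵥ* k = (θ • s) ᵥ* k := by
        rw [vecMul_vecMul, ← hk, ← vecMul_vecMul, hsk, hrγ, smul_vecMul, hsk]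
      have h6 := congrArg (fun y => y ᵥ* k⁻¹) h5
      simp only [vecMul_vecMul, mul_assoc, mul_inv_one hkd, mul_one, vecMul_one] at h6
      exact h6
    have h7 := congrFun h4 i
    rw [vecMul_diagonal] at h7
    simp only [Pi.smul_apply, smul_eq_mul] at h7
    have h8 : s i * (c i - c l) = 0 := by rw [hθ] at h7; linear_combination h7
    rcases mul_eq_zero.mp h8 with h | h
    · exact h
    · exact absurd (hc (by linarith)) hi
  have hrl : r = s l • k l := by
    rw [← hsk]
    funext j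
    simp only [vecMul, dotProduct, Pi.smul_apply, smul_eq_mul]
    rw [Finset.sum_eq_single l]
    · intro i _ hi; rw [hsi i hi, zero_mul]
    · intro h; exact absurd (Finset.mem_univ l) h
  have hsl : s l ≠ 0 := by
    intro h0
    apply hr0
    rw [hrl, h0, zero_smul]
  have hkrow : ∀ j, k l j = (s l)⁻¹ * τ0 (κ j) := by
    intro j
    have := congrFun hrl j
    simp only [Pi.smul_apply, smul_eq_mul, hr] at this
    rw [this]; field_simp
  set e : Equiv.Perm (Fin 3) := Equiv.swap 0 l with he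
  have he0 : e 0 = l := Equiv.swap_apply_left 0 l
  obtain ⟨C, hC⟩ := norm_form (K := K) h3 τ0 κ (s l)⁻¹ (k.submatrix e id)
    (fun j => by
      change k (e 0) j = _
      rw [he0]; exact hkrow j) (det_perm_ne e hkd) δ hδ
    (fun v hv => by rw [prodForm_perm]; exact hkl v hv)
  obtain ⟨C', hC'⟩ := norm_form (K := K) h3 τ0 κ (s l)⁻¹ (N.submatrix e id)
    (fun j => by
      change N (e 0) j = _
      rw [he0, hrow]; exact hkrow j) (det_perm_ne e hNd) δ hδ
    (fun v hv => by rw [prodForm_perm]; exact hNl v hv)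
  simp only [prodForm_perm] at hC hC'
  have hC0 : C ≠ 0 := by
    rintro rfl
    have h1 := hkl ![1, 0, 0] (by
      intro h
      have := congrFun h 0
      simp at this)
    have h2 := hC ![1, 0, 0]
    rw [zero_mul] at h2
    change δ ≤ |prodForm k (fun j => ((![1, 0, 0] : Fin 3 → ℤ) j : ℝ))| at h1
    rw [h2, abs_zero] at h1
    linarith
  refine ⟨C' / C, fun v => ?_⟩
  change prodForm N (fun j => (v j : ℝ)) = C' / C * prodForm k (fun j => (v j : ℝ))
  rw [hC, hC']
  field_simp

end M3C
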