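import Pool.Agent.Margulis3.Main

/-!
# Diagonal orbits in `SL_3(ℝ)/SL_3(ℤ)`: invariant sets of matrices, ultrafilter limits
-/

set_option autoImplicit false

open Matrix Filter Topology Set

namespace M3C

open Margulis3

abbrev Mt := Matrix (Fin 3) (Fin 3) ℝ

instance : FirstCountableTopology Mt := inferInstanceAs (FirstCountableTopology (Fin 3 → Fin 3 → ℝ))
instance : LocallyCompactSpace Mt := inferInstanceAs (LocallyCompactSpace (Fin 3 → Fin 3 → ℝ))
instance : T2Space Mt := inferInstanceAs (T2Space (Fin 3 → Fin 3 → ℝ))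

/-- integer matrix as a real matrix -/
def ir (γ : Matrix (Fin 3) (Fin 3) ℤ) : Mt := γ.map (fun z : ℤ => (z : ℝ))

/-- integer vector as a real vector -/
def cv (v : Fin 3 → ℤ) : Fin 3 → ℝ := fun j => (v j : ℝ)

def BoundedOrbit (g : Mt) : Prop :=
  ∃ K : Set Mt, IsCompact K ∧
    ∀ d : Fin 3 → ℝ, (Matrix.diagonal d).det = 1 →
      ∃ γ : Matrix (Fin 3) (Fin 3) ℤ, γ.det = 1 ∧
        Matrix.diagonal d * g * γ.map (fun z : ℤ => (z : ℝ)) ∈ K

def orbitSet (g : Mt) : Set Mt :=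
  {M | ∃ d : Fin 3 → ℝ, (Matrix.diagonal d).det = 1 ∧
    ∃ γ : Matrix (Fin 3) (Fin 3) ℤ, γ.det = 1 ∧
      M = Matrix.diagonal d * g * γ.map (fun z : ℤ => (z : ℝ))}

lemma ir_mul (a b : Matrix (Fin 3) (Fin 3) ℤ) : ir (a * b) = ir a * ir b := by
  have h := Matrix.map_mul (L := a) (M := b) (f := Int.castRingHom ℝ)
  exact h

lemma ir_one : ir 1 = 1 := by
  have h := Matrix.map_one (n := Fin 3) (Int.castRingHom ℝ) (map_zero _) (map_one _)
  exact h

lemma det_ir {γ : Matrix (Fin 3) (Fin 3) ℤ} (h : γ.det = 1) : (ir γ).det = 1 := by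
  have : (γ.map (Int.castRingHom ℝ)).det = ((γ.det : ℤ) : ℝ) := by
    rw [← RingHom.mapMatrix_apply, ← RingHom.map_det]; rfl
  rw [h, Int.cast_one] at this
  exact this

lemma ir_mulVec (γ : Matrix (Fin 3) (Fin 3) ℤ) (v : Fin 3 → ℤ) :
    ir γ *ᵥ cv v = cv (γ *ᵥ v) := by
  funext i
  simp only [ir, cv, mulVec, dotProduct, Matrix.map_apply]
  push_cast
  rfl

lemma adj_det {γ : Matrix (Fin 3) (Fin 3) ℤ} (h : γ.det = 1) : γ.adjugate.det = 1 := by
  rw [det_adjugate, h, one_pow]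

lemma mul_adj {γ : Matrix (Fin 3) (Fin 3) ℤ} (h : γ.det = 1) : γ * γ.adjugate = 1 := by
  rw [mul_adjugate, h, one_smul]

lemma adj_mul {γ : Matrix (Fin 3) (Fin 3) ℤ} (h : γ.det = 1) : γ.adjugate * γ = 1 := by
  rw [adjugate_mul, h, one_smul]

lemma ir_mul_adj {γ : Matrix (Fin 3) (Fin 3) ℤ} (h : γ.det = 1) : ir γ * ir γ.adjugate = 1 := by
  rw [← ir_mul, mul_adj h, ir_one]

lemma ir_adj_mul {γ : Matrix (Fin 3) (Fin 3) ℤ} (h : γ.det = 1) : ir γ.adjugate * ir γ = 1 := by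
  rw [← ir_mul, adj_mul h, ir_one]

lemma mulVec_ne {γ : Matrix (Fin 3) (Fin 3) ℤ} (h : γ.det = 1) {v : Fin 3 → ℤ} (hv : v ≠ 0) :
    γ *ᵥ v ≠ 0 := by
  intro h0
  apply hv
  have : γ.adjugate *ᵥ (γ *ᵥ v) = v := by
    rw [mulVec_mulVec, adj_mul h, one_mulVec]
  rw [← this, h0, mulVec_zero]

/-- diagonal matrices of determinant one: inverse -/
lemma diag_inv {d : Fin 3 → ℝ} (h : (Matrix.diagonal d).det = 1) :
    (Matrix.diagonal (fun i => (d i)⁻¹)).det = 1 ∧
      Matrix.diagonal (fun i => (d i)⁻¹) * Matrix.diagonal d = 1 ∧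
      Matrix.diagonal d * Matrix.diagonal (fun i => (d i)⁻¹) = 1 := by
  rw [det_diagonal3] at h ⊢
  have h0 : d 0 ≠ 0 := by rintro h0; rw [h0] at h; simp at h
  have h1 : d 1 ≠ 0 := by rintro h1; rw [h1] at h; simp at h
  have h2 : d 2 ≠ 0 := by rintro h2; rw [h2] at h; simp at h
  have hne : ∀ i, d i ≠ 0 := by intro i; fin_cases i <;> assumption
  refine ⟨?_, ?_, ?_⟩
  · rw [← mul_inv, ← mul_inv, h, inv_one]
  · rw [diagonal_mul_diagonal, ← diagonal_one]
    congr 1; funext i; simp [hne i]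
  · rw [diagonal_mul_diagonal, ← diagonal_one]
    congr 1; funext i; simp [hne i]

lemma diag_ne {d : Fin 3 → ℝ} (h : (Matrix.diagonal d).det = 1) (i : Fin 3) : d i ≠ 0 := by
  rw [det_diagonal3] at h
  have h0 : d 0 ≠ 0 := by rintro h0; rw [h0] at h; simp at h
  have h1 : d 1 ≠ 0 := by rintro h1; rw [h1] at h; simp at h
  have h2 : d 2 ≠ 0 := by rintro h2; rw [h2] at h; simp at h
  fin_cases i <;> assumption

lemma diag_mul_det {d e : Fin 3 → ℝ} (h : (Matrix.diagonal d).det = 1)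
    (h' : (Matrix.diagonal e).det = 1) : (Matrix.diagonal (fun i => d i * e i)).det = 1 := by
  rw [← diagonal_mul_diagonal, det_mul, h, h', one_mul]

/-- the product form is invariant under diagonal matrices of determinant one -/
lemma prodForm_diag {d : Fin 3 → ℝ} (h : (Matrix.diagonal d).det = 1) (M : Mt) (x : Fin 3 → ℝ) :
    prodForm (Matrix.diagonal d * M) x = prodForm M x := by
  unfold prodForm
  rw [← mulVec_mulVec]
  simp only [mulVec_diagonal]
  rw [Finset.prod_mul_distrib]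
  have : ∏ i, d i = 1 := by rwa [det_diagonal] at h
  rw [this, one_mul]

lemma prodForm_mul (M N : Mt) (x : Fin 3 → ℝ) : prodForm (M * N) x = prodForm M (N *ᵥ x) := by
  unfold prodForm
  rw [mulVec_mulVec]

lemma prodForm_ir (M : Mt) (γ : Matrix (Fin 3) (Fin 3) ℤ) (v : Fin 3 → ℤ) :
    prodForm (M * ir γ) (cv v) = prodForm M (cv (γ *ᵥ v)) := by
  rw [prodForm_mul, ir_mulVec]

lemma continuous_prodForm (x : Fin 3 → ℝ) : Continuous (fun N : Mt => prodForm N x) := by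
  unfold prodForm
  refine continuous_finsetProd _ fun i _ => ?_
  exact (continuous_apply i).comp ((continuous_id (X := Mt)).matrix_mulVec continuous_const)

/-- closed invariant bounded set -/
structure Bd (S : Set Mt) : Prop where
  closed : IsClosed S
  ne : S.Nonempty
  det : ∀ M ∈ S, M.det = 1
  left : ∀ M ∈ S, ∀ d : Fin 3 → ℝ, (Matrix.diagonal d).det = 1 → Matrix.diagonal d * M ∈ S
  right : ∀ M ∈ S, ∀ γ : Matrix (Fin 3) (Fin 3) ℤ, γ.det = 1 → M * ir γ ∈ S
  cpt : ∃ K : Set Mt, IsCompact K ∧ ∀ M ∈ S, ∃ γ : Matrix (Fin 3) (Fin 3) ℤ, γ.det = 1 ∧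
    M * ir γ ∈ K
  low : ∃ δ : ℝ, 0 < δ ∧ ∀ M ∈ S, ∀ v : Fin 3 → ℤ, v ≠ 0 → δ ≤ |prodForm M (cv v)|

/-! ### ultrafilter limits -/

lemma ult_lim (F : Ultrafilter ℕ) (f : ℕ → ℝ) (B : ℝ) (h : ∀ᶠ n in (F : Filter ℕ), |f n| ≤ B) :
    ∃ l : ℝ, |l| ≤ B ∧ Tendsto f F (𝓝 l) := by
  have h1 : Icc (-B) B ∈ Ultrafilter.map f F := by
    rw [Ultrafilter.mem_map]
    filter_upwards [h] with n hn
    exact abs_le.mp hn
  obtain ⟨l, hl, hlim⟩ := isCompact_Icc.ultrafilter_le_nhds (Ultrafilter.map f F)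
    (le_principal_iff.mpr h1)
  exact ⟨l, abs_le.mpr hl, hlim⟩

lemma ult_cpt (F : Ultrafilter ℕ) {K : Set Mt} (hK : IsCompact K) (f : ℕ → Mt)
    (h : ∀ᶠ n in (F : Filter ℕ), f n ∈ K) : ∃ k ∈ K, Tendsto f F (𝓝 k) := by
  have h1 : K ∈ Ultrafilter.map f F := by
    rw [Ultrafilter.mem_map]
    exact h
  obtain ⟨l, hl, hlim⟩ := hK.ultrafilter_le_nhds (Ultrafilter.map f F)
    (le_principal_iff.mpr h1)
  exact ⟨l, hl, hlim⟩

lemma ult_fin {α : Type*} (F : Ultrafilter ℕ) (f : ℕ → α) (s : Set α) (hs : s.Finite)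
    (h : ∀ᶠ n in (F : Filter ℕ), f n ∈ s) : ∃ a ∈ s, ∀ᶠ n in (F : Filter ℕ), f n = a := by
  have h1 : ∀ᶠ n in (F : Filter ℕ), ∃ a ∈ s, f n = a := by
    filter_upwards [h] with n hn
    exact ⟨f n, hn, rfl⟩
  exact (Ultrafilter.eventually_exists_mem_iff hs).mp h1

lemma ult_vec (F : Ultrafilter ℕ) (v : ℕ → Fin 3 → ℤ) (B : ℝ)
    (h : ∀ᶠ n in (F : Filter ℕ), ∀ i, |(v n i : ℝ)| ≤ B) :
    ∃ v0, ∀ᶠ n in (F : Filter ℕ), v n = v0 := by
  obtain ⟨N, hN⟩ := exists_nat_ge B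
  have hfin : (Set.pi Set.univ (fun _ : Fin 3 => Set.Icc (-(N : ℤ)) N)).Finite :=
    Set.Finite.pi' (fun _ => Set.finite_Icc _ _) |>.subset (by
      intro x hx i; exact hx i (mem_univ i))
  obtain ⟨a, -, ha⟩ := ult_fin F v _ hfin (by
    filter_upwards [h] with n hn
    intro i _
    have h1 := hn i
    have h2 : |(v n i : ℝ)| ≤ (N : ℝ) := h1.trans hN
    have h3 : |v n i| ≤ (N : ℤ) := by exact_mod_cast h2
    exact abs_le.mp h3)
  exact ⟨a, ha⟩

lemma ult_mat (F : Ultrafilter ℕ) (γ : ℕ → Matrix (Fin 3) (Fin 3) ℤ) (L : Mt)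
    (h : Tendsto (fun n => ir (γ n)) F (𝓝 L)) :
    ∃ γ0, ∀ᶠ n in (F : Filter ℕ), γ n = γ0 := by
  have h1 : ∀ i, ∃ w, ∀ᶠ n in (F : Filter ℕ), γ n i = w := by
    intro i
    have hb : ∀ j, ∀ᶠ n in (F : Filter ℕ), |(γ n i j : ℝ)| ≤ |L i j| + 1 := by
      intro j
      have h2 : Tendsto (fun n => (ir (γ n)) i j) F (𝓝 (L i j)) :=
        ((continuous_id (X := Mt)).matrix_elem i j).continuousAt.tendsto.comp h
      have h3 := (Metric.tendsto_nhds.mp h2) 1 one_pos
      filter_upwards [h3] with n hn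
      rw [Real.dist_eq] at hn
      have h4 : (ir (γ n)) i j = (γ n i j : ℝ) := rfl
      rw [h4] at hn
      have := abs_sub_abs_le_abs_sub (γ n i j : ℝ) (L i j)
      linarith
    have hb' : ∀ᶠ n in (F : Filter ℕ), ∀ j, |(γ n i j : ℝ)| ≤ ∑ j, (|L i j| + 1) := by
      rw [eventually_all]
      intro j
      filter_upwards [hb j] with n hn
      refine hn.trans ?_
      exact Finset.single_le_sum (f := fun j => |L i j| + 1) (fun j _ => by positivity)
        (Finset.mem_univ j)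
    exact ult_vec F (fun n => γ n i) _ hb'
  choose w hw using h1
  refine ⟨Matrix.of w, ?_⟩
  have h2 : ∀ᶠ n in (F : Filter ℕ), ∀ i, γ n i = w i := by
    rw [eventually_all]; exact hw
  filter_upwards [h2] with n hn
  ext i j
  rw [hn i]; rfl

/-- the inverse is continuous along matrices of determinant one -/
lemma tendsto_inv {ι : Type*} {F : Filter ι} {Ms : ι → Mt} {M : Mt} (h : Tendsto Ms F (𝓝 M))
    (hd : ∀ᶠ n in F, (Ms n).det = 1) (hM : M.det = 1) :
    Tendsto (fun n => (Ms n)⁻¹) F (𝓝 M⁻¹) := by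
  have e : ∀ N : Mt, N.det = 1 → N⁻¹ = N.adjugate := by
    intro N hN
    rw [Matrix.inv_def, hN]; simp
  rw [e M hM]
  have h1 : Tendsto (fun n => (Ms n).adjugate) F (𝓝 M.adjugate) :=
    ((continuous_id (X := Mt)).matrix_adjugate).continuousAt.tendsto.comp h
  refine h1.congr' ?_
  filter_upwards [hd] with n hn
  exact (e _ hn).symm

lemma inv_mul_one {M : Mt} (h : M.det = 1) : M⁻¹ * M = 1 :=
  nonsing_inv_mul _ (by rw [h]; exact isUnit_one)

lemma mul_inv_one {M : Mt} (h : M.det = 1) : M * M⁻¹ = 1 :=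
  mul_nonsing_inv _ (by rw [h]; exact isUnit_one)

lemma det_inv_one {M : Mt} (h : M.det = 1) : (M⁻¹).det = 1 := by
  rw [det_nonsing_inv, h]; simp

lemma tendsto_det {ι : Type*} {F : Filter ι} [F.NeBot] {Ms : ι → Mt} {M : Mt}
    (h : Tendsto Ms F (𝓝 M)) (hd : ∀ᶠ n in F, (Ms n).det = 1) : M.det = 1 := by
  have h1 : Tendsto (fun n => (Ms n).det) F (𝓝 M.det) :=
    ((continuous_id (X := Mt)).matrix_det).continuousAt.tendsto.comp h
  refine tendsto_nhds_unique h1 ?_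
  exact tendsto_const_nhds.congr' (by filter_upwards [hd] with n hn; exact hn.symm)

/-! ### the closure of a bounded orbit -/

lemma mem_orbit_self (g : Mt) : g ∈ orbitSet g :=
  ⟨fun _ => 1, by simp, 1, by simp, by
    have h1 := ir_one
    change g = Matrix.diagonal (fun _ => (1 : ℝ)) * g * ir 1
    rw [h1, mul_one, diagonal_one, one_mul]⟩

lemma orbit_left {g M : Mt} (h : M ∈ orbitSet g) {d : Fin 3 → ℝ}
    (hd : (Matrix.diagonal d).det = 1) : Matrix.diagonal d * M ∈ orbitSet g := by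
  obtain ⟨e, he, γ, hγ, rfl⟩ := h
  refine ⟨fun i => d i * e i, diag_mul_det hd he, γ, hγ, ?_⟩
  rw [← diagonal_mul_diagonal, mul_assoc, mul_assoc, mul_assoc]

lemma orbit_right {g M : Mt} (h : M ∈ orbitSet g) {γ : Matrix (Fin 3) (Fin 3) ℤ}
    (hγ : γ.det = 1) : M * ir γ ∈ orbitSet g := by
  obtain ⟨e, he, γ', hγ', rfl⟩ := h
  refine ⟨e, he, γ' * γ, by rw [det_mul, hγ, hγ', one_mul], ?_⟩
  change _ * g * ir γ' * ir γ = _ * g * ir (γ' * γ)
  rw [ir_mul, mul_assoc]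

lemma orbit_det {g M : Mt} (hg : g.det = 1) (h : M ∈ orbitSet g) : M.det = 1 := by
  obtain ⟨e, he, γ', hγ', rfl⟩ := h
  have h1 := det_ir hγ'
  unfold ir at h1
  rw [det_mul, det_mul, he, hg, h1]; norm_num

/-- orbit sets of members of an invariant set -/
lemma orbit_subset {S : Set Mt} (hl : ∀ M ∈ S, ∀ d : Fin 3 → ℝ, (Matrix.diagonal d).det = 1 →
    Matrix.diagonal d * M ∈ S) (hr : ∀ M ∈ S, ∀ γ : Matrix (Fin 3) (Fin 3) ℤ, γ.det = 1 →
    M * ir γ ∈ S) {g : Mt} (hg : g ∈ S) : orbitSet g ⊆ S := by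
  rintro M ⟨e, he, γ', hγ', rfl⟩
  exact hr _ (hl _ hg _ he) _ hγ'

lemma orbit_symm {g M : Mt} (h : M ∈ orbitSet g) : g ∈ orbitSet M := by
  obtain ⟨e, he, γ, hγ, rfl⟩ := h
  obtain ⟨h1, h2, h3⟩ := diag_inv he
  refine ⟨_, h1, γ.adjugate, adj_det hγ, ?_⟩
  change g = _ * (_ * g * ir γ) * ir γ.adjugate
  have h4 := ir_mul_adj hγ
  calc g = (Matrix.diagonal (fun i => (e i)⁻¹) * Matrix.diagonal e) * g * (ir γ * ir γ.adjugate) := by
        rw [h2, h4, one_mul, mul_one]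
    _ = _ := by simp only [mul_assoc]

lemma orbit_eq {g M : Mt} (h : M ∈ orbitSet g) : orbitSet M = orbitSet g := by
  apply Subset.antisymm
  · exact orbit_subset (fun _ h _ hd => orbit_left h hd) (fun _ h _ hγ => orbit_right h hγ) h
  · exact orbit_subset (fun _ h _ hd => orbit_left h hd) (fun _ h _ hγ => orbit_right h hγ)
      (orbit_symm h)

lemma closure_left {g M : Mt} (h : M ∈ closure (orbitSet g)) {d : Fin 3 → ℝ}
    (hd : (Matrix.diagonal d).det = 1) : Matrix.diagonal d * M ∈ closure (orbitSet g) := by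
  have hc : Continuous (fun N : Mt => Matrix.diagonal d * N) :=
    Continuous.matrix_mul continuous_const continuous_id
  exact map_mem_closure (f := fun N : Mt => Matrix.diagonal d * N) hc h
    (fun N hN => orbit_left hN hd)

lemma closure_right {g M : Mt} (h : M ∈ closure (orbitSet g)) {γ : Matrix (Fin 3) (Fin 3) ℤ}
    (hγ : γ.det = 1) : M * ir γ ∈ closure (orbitSet g) := by
  have hc : Continuous (fun N : Mt => N * ir γ) :=
    Continuous.matrix_mul continuous_id continuous_const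
  exact map_mem_closure (f := fun N : Mt => N * ir γ) hc h (fun N hN => orbit_right hN hγ)

theorem closure_bd {g : Mt} (hg : g.det = 1) (hb : BoundedOrbit g) :
    Bd (closure (orbitSet g)) := by
  have hdetc : IsClosed {M : Mt | M.det = 1} :=
    isClosed_eq (continuous_id.matrix_det) continuous_const
  have hdet : ∀ M ∈ closure (orbitSet g), M.det = 1 := by
    intro M hM
    exact closure_minimal (fun N hN => orbit_det hg hN) hdetc hM
  refine ⟨isClosed_closure, ⟨g, subset_closure (mem_orbit_self g)⟩, hdet,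
    fun M hM d hd => closure_left hM hd, fun M hM γ hγ => closure_right hM hγ, ?_, ?_⟩
  · obtain ⟨K, hK, h⟩ := hb
    refine ⟨K, hK, fun M hM => ?_⟩
    obtain ⟨Ms, hMs, hlim⟩ := mem_closure_iff_seq_limit.mp hM
    have h1 : ∀ n, ∃ γ : Matrix (Fin 3) (Fin 3) ℤ, γ.det = 1 ∧ Ms n * ir γ ∈ K := by
      intro n
      obtain ⟨d, hd, γ', hγ', hMeq⟩ := hMs n
      obtain ⟨γ, hγ, hk⟩ := h d hd
      refine ⟨γ'.adjugate * γ, by rw [det_mul, adj_det hγ', hγ, one_mul], ?_⟩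
      have h2 : Ms n * ir (γ'.adjugate * γ) = Matrix.diagonal d * g * ir γ := by
        rw [hMeq, ir_mul]
        change _ * g * ir γ' * (ir γ'.adjugate * ir γ) = _
        have h4 := ir_mul_adj hγ'
        calc Matrix.diagonal d * g * ir γ' * (ir γ'.adjugate * ir γ)
            = Matrix.diagonal d * g * (ir γ' * ir γ'.adjugate) * ir γ := by
              simp only [mul_assoc]
          _ = _ := by rw [h4, mul_one]
      rw [h2]
      exact hk
    choose γ hγ hγK using h1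
    set F : Ultrafilter ℕ := hyperfilter ℕ with hF
    have hFle : (F : Filter ℕ) ≤ atTop := Nat.hyperfilter_le_atTop
    have hlimF : Tendsto Ms F (𝓝 M) := hlim.mono_left hFle
    obtain ⟨k, hk, hklim⟩ := ult_cpt F hK (fun n => Ms n * ir (γ n)) (Eventually.of_forall hγK)
    have hinv := tendsto_inv hlimF (Eventually.of_forall fun n => orbit_det hg (hMs n)) (hdet M hM)
    have h3 : Tendsto (fun n => (Ms n)⁻¹ * (Ms n * ir (γ n))) F (𝓝 (M⁻¹ * k)) := by
      exact ((continuous_fst.matrix_mul continuous_snd).tendsto (M⁻¹, k)).comp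
        (hinv.prodMk_nhds hklim)
    have h4 : (fun n => (Ms n)⁻¹ * (Ms n * ir (γ n))) = fun n => ir (γ n) := by
      funext n
      rw [← mul_assoc, inv_mul_one (orbit_det hg (hMs n)), one_mul]
    rw [h4] at h3
    obtain ⟨γ0, hγ0⟩ := ult_mat F γ _ h3
    obtain ⟨n, hn⟩ := hγ0.exists
    refine ⟨γ0, by rw [← hn]; exact hγ n, ?_⟩
    have h5 : Tendsto (fun n => Ms n * ir (γ n)) F (𝓝 (M * ir γ0)) := by
      have h6 : Tendsto (fun n => Ms n * ir γ0) F (𝓝 (M * ir γ0)) :=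
        ((Continuous.matrix_mul continuous_id continuous_const).tendsto M).comp hlimF
      refine h6.congr' ?_
      filter_upwards [hγ0] with n hn
      rw [hn]
    rw [tendsto_nhds_unique h5 hklim]
    exact hk
  · obtain ⟨δ, hδ, hlow⟩ := lower_bound g hb hg
    refine ⟨δ, hδ, fun M hM v hv => ?_⟩
    have hc : IsClosed {N : Mt | δ ≤ |prodForm N (cv v)|} :=
      isClosed_le continuous_const (continuous_prodForm (cv v)).abs
    refine closure_minimal ?_ hc hM
    rintro N ⟨d, hd, γ, hγ, rfl⟩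
    change δ ≤ |prodForm (_ * g * ir γ) (cv v)|
    rw [prodForm_ir, prodForm_diag hd]
    exact hlow _ (mulVec_ne hγ hv)

end M3C
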