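import Pool.Agent.M3C.Orbit

/-!
# A value of the form that is attained near every point of the orbit forces local rigidity
-/

set_option autoImplicit false

open Matrix Filter Topology Set

namespace M3C

open Margulis3

lemma ult_lim_vec (F : Ultrafilter ℕ) (f : ℕ → Fin 3 → ℝ) (B : Fin 3 → ℝ)
    (h : ∀ᶠ n in (F : Filter ℕ), ∀ i, |f n i| ≤ B i) :
    ∃ l : Fin 3 → ℝ, (∀ i, |l i| ≤ B i) ∧ Tendsto f F (𝓝 l) := by
  have h1 : ∀ i, ∃ l : ℝ, |l| ≤ B i ∧ Tendsto (fun n => f n i) F (𝓝 l) := by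
    intro i
    exact ult_lim F (fun n => f n i) (B i) (by filter_upwards [h] with n hn; exact hn i)
  choose l hl hlim using h1
  exact ⟨l, hl, tendsto_pi_nhds.mpr hlim⟩

lemma ult_vec_lim (F : Ultrafilter ℕ) (v : ℕ → Fin 3 → ℤ) (u : Fin 3 → ℝ)
    (h : Tendsto (fun n => cv (v n)) F (𝓝 u)) : ∃ v0, ∀ᶠ n in (F : Filter ℕ), v n = v0 := by
  refine ult_vec F v (∑ j, (|u j| + 1)) ?_
  rw [eventually_all]
  intro i
  have h2 : Tendsto (fun n => cv (v n) i) F (𝓝 (u i)) := (tendsto_pi_nhds.mp h) i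
  have h3 := (Metric.tendsto_nhds.mp h2) 1 one_pos
  filter_upwards [h3] with n hn
  rw [Real.dist_eq] at hn
  have h4 : cv (v n) i = (v n i : ℝ) := rfl
  rw [h4] at hn
  have h5 := abs_sub_abs_le_abs_sub (v n i : ℝ) (u i)
  have h6 : |u i| + 1 ≤ ∑ j, (|u j| + 1) :=
    Finset.single_le_sum (f := fun j => |u j| + 1) (fun j _ => by positivity)
      (Finset.mem_univ i)
  linarith

lemma tendsto_mulVec {F : Filter ℕ} {Ms : ℕ → Mt} {M : Mt} {vs : ℕ → Fin 3 → ℝ}
    {v : Fin 3 → ℝ} (h : Tendsto Ms F (𝓝 M)) (hv : Tendsto vs F (𝓝 v)) :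
    Tendsto (fun n => Ms n *ᵥ vs n) F (𝓝 (M *ᵥ v)) := by
  have hc : Continuous (fun p : Mt × (Fin 3 → ℝ) => p.1 *ᵥ p.2) :=
    Continuous.matrix_mulVec continuous_fst continuous_snd
  exact (hc.tendsto (M, v)).comp (h.prodMk_nhds hv)

lemma tendsto_mul' {F : Filter ℕ} {Ms Ns : ℕ → Mt} {M N : Mt}
    (h : Tendsto Ms F (𝓝 M)) (hv : Tendsto Ns F (𝓝 N)) :
    Tendsto (fun n => Ms n * Ns n) F (𝓝 (M * N)) := by
  have hc : Continuous (fun p : Mt × Mt => p.1 * p.2) :=
    Continuous.matrix_mul continuous_fst continuous_snd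
  exact (hc.tendsto (M, N)).comp (h.prodMk_nhds hv)

lemma tendsto_entry {F : Filter ℕ} {Ms : ℕ → Mt} {M : Mt} (h : Tendsto Ms F (𝓝 M))
    (i j : Fin 3) : Tendsto (fun n => Ms n i j) F (𝓝 (M i j)) :=
  ((continuous_id (X := Mt)).matrix_elem i j).continuousAt.tendsto.comp h

lemma diag_mulVec (a : Fin 3 → ℝ) (M : Mt) (x : Fin 3 → ℝ) (i : Fin 3) :
    ((Matrix.diagonal a * M) *ᵥ x) i = a i * (M *ᵥ x) i := by
  rw [← mulVec_mulVec, mulVec_diagonal]

/-- windows: apply the hypothesis along the sequence after a diagonal translation -/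
lemma window {S : Set Mt} (hS : Bd S) {d0 R : ℝ}
    (H : ∀ M ∈ S, ∃ v : Fin 3 → ℤ, v ≠ 0 ∧ (∀ i, |(M *ᵥ cv v) i| ≤ R) ∧ prodForm M (cv v) = d0)
    (F : Ultrafilter ℕ) {Ms : ℕ → Mt} {M : Mt} (hM : M ∈ S) (hMs : ∀ n, Ms n ∈ S)
    (hlim : Tendsto Ms F (𝓝 M)) {a : Fin 3 → ℝ} (ha : (Matrix.diagonal a).det = 1) :
    ∃ v : Fin 3 → ℤ, v ≠ 0 ∧ (∀ i, |a i * (M *ᵥ cv v) i| ≤ R) ∧ prodForm M (cv v) = d0 ∧
      ∀ᶠ n in (F : Filter ℕ), prodForm (Ms n) (cv v) = d0 := by
  choose v hv0 hv1 hv2 using fun n => H _ (hS.left _ (hMs n) a ha)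
  have hane := diag_ne ha
  have hb : ∀ n i, |(Ms n *ᵥ cv (v n)) i| ≤ R / |a i| := by
    intro n i
    have h1 := hv1 n i
    rw [diag_mulVec, abs_mul] at h1
    rw [le_div_iff₀ (abs_pos.mpr (hane i)), mul_comm]
    exact h1
  obtain ⟨y, hy, hylim⟩ := ult_lim_vec F (fun n => Ms n *ᵥ cv (v n)) (fun i => R / |a i|)
    (Eventually.of_forall fun n i => hb n i)
  have hinv := tendsto_inv hlim (Eventually.of_forall fun n => hS.det _ (hMs n)) (hS.det M hM)
  have h2 := tendsto_mulVec hinv hylim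
  have h3 : (fun n => (Ms n)⁻¹ *ᵥ (Ms n *ᵥ cv (v n))) = fun n => cv (v n) := by
    funext n
    rw [mulVec_mulVec, inv_mul_one (hS.det _ (hMs n)), one_mulVec]
  rw [h3] at h2
  obtain ⟨v0, hv0'⟩ := ult_vec_lim F v _ h2
  have hpf : ∀ᶠ n in (F : Filter ℕ), prodForm (Ms n) (cv v0) = d0 := by
    filter_upwards [hv0'] with n hn
    have h4 := hv2 n
    rw [prodForm_diag ha, hn] at h4
    exact h4
  refine ⟨v0, ?_, ?_, ?_, hpf⟩
  · obtain ⟨n, hn⟩ := hv0'.exists
    rw [← hn]; exact hv0 n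
  · intro i
    have h5 : Tendsto (fun n => |a i * (Ms n *ᵥ cv v0) i|) F (𝓝 |a i * (M *ᵥ cv v0) i|) := by
      have h6 := (tendsto_pi_nhds.mp (tendsto_mulVec (F := F) hlim
        (tendsto_const_nhds (x := cv v0)))) i
      exact (h6.const_mul (a i)).abs
    refine le_of_tendsto h5 ?_
    filter_upwards [hv0'] with n hn
    have h7 := hv1 n i
    rw [diag_mulVec, hn] at h7
    exact h7
  · have h5 : Tendsto (fun n => prodForm (Ms n) (cv v0)) F (𝓝 (prodForm M (cv v0))) :=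
      ((continuous_prodForm (cv v0)).tendsto M).comp hlim
    refine tendsto_nhds_unique h5 ?_
    exact tendsto_const_nhds.congr' (by filter_upwards [hpf] with n hn; exact hn.symm)

/-- the linearised relation -/
noncomputable def Lin (W : Mt) (x : Fin 3 → ℝ) : ℝ :=
  ∑ i, ∑ j, W i j * (x j / x i)

lemma lin_limit (F : Ultrafilter ℕ) {G W : ℕ → Mt} {W0 : Mt} {ε : ℕ → ℝ}
    (hG : Tendsto G F (𝓝 1)) (hW : Tendsto W F (𝓝 W0)) (hε : ∀ᶠ n in (F : Filter ℕ), ε n ≠ 0)
    (hε0 : Tendsto ε F (𝓝 0))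
    (hGW : ∀ᶠ n in (F : Filter ℕ), ∀ i j, G n i j = (if i = j then G n i i else 0) + ε n * W n i j)
    (x : Fin 3 → ℝ) (hx : ∀ i, x i ≠ 0)
    (hp : ∀ᶠ n in (F : Filter ℕ), prodForm (G n) x = x 0 * x 1 * x 2) :
    Tendsto (fun n => (1 - G n 0 0 * G n 1 1 * G n 2 2) / ε n) F (𝓝 (Lin W0 x)) := by
  set e : ℕ → Fin 3 → ℝ := fun n i => ∑ j, W n i j * (x j / x i) with he
  set e0 : Fin 3 → ℝ := fun i => ∑ j, W0 i j * (x j / x i) with he0
  have helim : ∀ i, Tendsto (fun n => e n i) F (𝓝 (e0 i)) := by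
    intro i
    refine tendsto_finsetSum _ fun j _ => ?_
    exact (tendsto_entry hW i j).mul_const _
  have hGi : ∀ i, Tendsto (fun n => G n i i) F (𝓝 1) := by
    intro i
    have := tendsto_entry hG i i
    rwa [Matrix.one_apply_eq] at this
  have h1 : Tendsto (fun n => e n 0 * G n 1 1 * G n 2 2 + e n 1 * G n 0 0 * G n 2 2
      + e n 2 * G n 0 0 * G n 1 1
      + ε n * (e n 0 * e n 1 * G n 2 2 + e n 0 * e n 2 * G n 1 1 + e n 1 * e n 2 * G n 0 0)
      + ε n * ε n * (e n 0 * e n 1 * e n 2)) F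
      (𝓝 (e0 0 * 1 * 1 + e0 1 * 1 * 1 + e0 2 * 1 * 1
      + 0 * (e0 0 * e0 1 * 1 + e0 0 * e0 2 * 1 + e0 1 * e0 2 * 1)
      + 0 * 0 * (e0 0 * e0 1 * e0 2))) := by
    have a0 := helim 0
    have a1 := helim 1
    have a2 := helim 2
    have g0 := hGi 0
    have g1 := hGi 1
    have g2 := hGi 2
    exact ((((((a0.mul g1).mul g2).add ((a1.mul g0).mul g2)).add ((a2.mul g0).mul g1)).add
      (hε0.mul ((((a0.mul a1).mul g2).add ((a0.mul a2).mul g1)).add ((a1.mul a2).mul g0)))).add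
      ((hε0.mul hε0).mul ((a0.mul a1).mul a2)))
  have h2 : Lin W0 x = e0 0 * 1 * 1 + e0 1 * 1 * 1 + e0 2 * 1 * 1
      + 0 * (e0 0 * e0 1 * 1 + e0 0 * e0 2 * 1 + e0 1 * e0 2 * 1)
      + 0 * 0 * (e0 0 * e0 1 * e0 2) := by
    unfold Lin
    rw [Fin.sum_univ_three]
    ring
  rw [h2]
  refine h1.congr' ?_
  filter_upwards [hε, hGW, hp] with n hn hn2 hn3
  rw [eq_div_iff hn]
  have hfac : ∀ i, (G n *ᵥ x) i = x i * (G n i i + ε n * e n i) := by
    intro i
    have hxi := hx i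
    have e1 : (G n *ᵥ x) i = ∑ j, G n i j * x j := rfl
    have e2 : x i * (G n i i + ε n * e n i) = ∑ j, ((if i = j then G n i i else 0) * x j
        + ε n * W n i j * x j) := by
      rw [Finset.sum_add_distrib, mul_add, he]
      congr 1
      · rw [Finset.sum_eq_single i]
        · rw [if_pos rfl, mul_comm]
        · intro j _ hj; rw [if_neg (Ne.symm hj), zero_mul]
        · intro h; exact absurd (Finset.mem_univ i) h
      · simp only
        rw [Finset.mul_sum, Finset.mul_sum]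
        refine Finset.sum_congr rfl fun j _ => ?_
        field_simp
    rw [e1, e2]
    refine Finset.sum_congr rfl fun j _ => ?_
    rw [hn2 i j]
    by_cases hij : i = j
    · subst hij; simp; ring
    · simp [hij]
  have hprod : prodForm (G n) x = (G n 0 0 + ε n * e n 0) * (G n 1 1 + ε n * e n 1)
      * (G n 2 2 + ε n * e n 2) * (x 0 * x 1 * x 2) := by
    unfold prodForm
    rw [Fin.prod_univ_three, hfac, hfac, hfac]; ring
  rw [hn3] at hprod
  have hxx : x 0 * x 1 * x 2 ≠ 0 := mul_ne_zero (mul_ne_zero (hx 0) (hx 1)) (hx 2)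
  have h5 : (G n 0 0 + ε n * e n 0) * (G n 1 1 + ε n * e n 1) * (G n 2 2 + ε n * e n 2) = 1 := by
    have h6 : ((G n 0 0 + ε n * e n 0) * (G n 1 1 + ε n * e n 1) * (G n 2 2 + ε n * e n 2) - 1)
        * (x 0 * x 1 * x 2) = 0 := by linarith
    rcases mul_eq_zero.mp h6 with h7 | h7
    · linarith
    · exact absurd h7 hxx
  linear_combination h5

lemma ratio {x : Fin 3 → ℝ} {R D : ℝ} (hD : 0 < D) (hx : ∀ i, |x i| ≤ R)
    (hp : |x 0 * x 1 * x 2| = D) (i j : Fin 3) : |x j / x i| ≤ R ^ 3 / D := by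
  have hR : 0 ≤ R := (abs_nonneg _).trans (hx 0)
  have hxx : x 0 * x 1 * x 2 ≠ 0 := by
    intro h; rw [h, abs_zero] at hp; linarith
  have hne : ∀ i, x i ≠ 0 := by
    intro i hi
    fin_cases i <;> simp only [Fin.zero_eta, Fin.mk_one, Fin.reduceFinMk] at hi <;>
      rw [hi] at hxx <;> simp at hxx
  have h1 : D ≤ |x i| * R ^ 2 := by
    rw [← hp, abs_mul, abs_mul]
    have a0 := hx 0
    have a1 := hx 1
    have a2 := hx 2
    have b0 := abs_nonneg (x 0)
    have b1 := abs_nonneg (x 1)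
    have b2 := abs_nonneg (x 2)
    fin_cases i
    · have := mul_le_mul a1 a2 b2 hR
      calc |x 0| * |x 1| * |x 2| = |x 0| * (|x 1| * |x 2|) := by ring
        _ ≤ |x 0| * (R * R) := mul_le_mul_of_nonneg_left this b0
        _ = |x 0| * R ^ 2 := by ring
    · have := mul_le_mul a0 a2 b2 hR
      calc |x 0| * |x 1| * |x 2| = |x 1| * (|x 0| * |x 2|) := by ring
        _ ≤ |x 1| * (R * R) := mul_le_mul_of_nonneg_left this b1
        _ = |x 1| * R ^ 2 := by ring
    · have := mul_le_mul a0 a1 b1 hR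
      calc |x 0| * |x 1| * |x 2| = |x 2| * (|x 0| * |x 1|) := by ring
        _ ≤ |x 2| * (R * R) := mul_le_mul_of_nonneg_left this b2
        _ = |x 2| * R ^ 2 := by ring
  rw [abs_div, div_le_div_iff₀ (abs_pos.mpr (hne i)) hD]
  calc |x j| * D ≤ R * (|x i| * R ^ 2) := mul_le_mul (hx j) h1 hD.le hR
    _ = R ^ 3 * |x i| := by ring

lemma sum_isolate (T : Fin 3 → Fin 3 → ℝ) (k l : Fin 3) :
    ∑ i, ∑ j, T i j = T k l + ∑ i, ∑ j, (if i = k ∧ j = l then 0 else T i j) := by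
  fin_cases k <;> fin_cases l <;> simp [Fin.sum_univ_three] <;> ring

lemma lin_upper {W : Mt} (hW : ∀ i j, |W i j| ≤ 1) {x : Fin 3 → ℝ} {ρ : ℝ}
    (hx : ∀ i j, |x j / x i| ≤ ρ) : |Lin W x| ≤ 9 * ρ := by
  have hρ : 0 ≤ ρ := (abs_nonneg _).trans (hx 0 0)
  unfold Lin
  refine (Finset.abs_sum_le_sum_abs _ _).trans ?_
  have h1 : ∀ i, |∑ j, W i j * (x j / x i)| ≤ 3 * ρ := by
    intro i
    refine (Finset.abs_sum_le_sum_abs _ _).trans ?_
    have h2 : ∀ j, |W i j * (x j / x i)| ≤ ρ := by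
      intro j
      rw [abs_mul]
      calc |W i j| * |x j / x i| ≤ 1 * ρ := mul_le_mul (hW i j) (hx i j) (abs_nonneg _) zero_le_one
        _ = ρ := one_mul _
    rw [Fin.sum_univ_three]
    linarith [h2 0, h2 1, h2 2]
  rw [Fin.sum_univ_three]
  linarith [h1 0, h1 1, h1 2]

/-- the scaling used in the second window -/
noncomputable def scal (k l : Fin 3) (t : ℝ) : Fin 3 → ℝ :=
  fun i => if i = k then t else if i = l then t⁻¹ else 1

lemma scal_det {k l : Fin 3} (h : k ≠ l) {t : ℝ} (ht : t ≠ 0) :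
    (Matrix.diagonal (scal k l t)).det = 1 := by
  rw [det_diagonal3]
  unfold scal
  fin_cases k <;> fin_cases l <;> simp_all

lemma scal_le {k l : Fin 3} (h : k ≠ l) {t : ℝ} (ht : 1 ≤ t) {i j : Fin 3}
    (hij : ¬ (i = k ∧ j = l)) (hne : i ≠ j) : scal k l t i / scal k l t j ≤ t := by
  have h0 : 0 < t := by linarith
  have h1 : t⁻¹ ≤ 1 := inv_le_one_of_one_le₀ ht
  have h2 : 0 < t⁻¹ := inv_pos.mpr h0
  have h3 : t⁻¹ ≤ t := h1.trans ht
  unfold scal
  have h4 : t⁻¹ / t ≤ t := by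
    rw [div_le_iff₀ h0]; nlinarith
  have h5 : 1 / t ≤ t := by rw [one_div]; exact h3
  have h6 : 1 / t⁻¹ ≤ t := by rw [one_div, inv_inv]
  fin_cases k <;> fin_cases l <;> fin_cases i <;> fin_cases j <;> simp_all

lemma scal_pos (k l : Fin 3) {t : ℝ} (ht : 0 < t) (i : Fin 3) : 0 < scal k l t i := by
  unfold scal
  split_ifs
  · exact ht
  · exact inv_pos.mpr ht
  · exact one_pos

lemma lin_lower {W : Mt} (hW : ∀ i j, |W i j| ≤ 1) (hWd : ∀ i, W i i = 0) {k l : Fin 3}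
    (hkl : k ≠ l) (hWkl : W k l = 1) {t ρ : ℝ} (ht : 1 ≤ t) (hρ : 0 < ρ) {z : Fin 3 → ℝ}
    (hz0 : ∀ i, z i ≠ 0)
    (hz : ∀ i j, |scal k l t j * z j / (scal k l t i * z i)| ≤ ρ) :
    t ^ 2 / ρ - 9 * (ρ * t) ≤ |Lin W z| := by
  have ht0 : 0 < t := by linarith
  have hsp := scal_pos k l ht0
  have hratio : ∀ i j, z j / z i = (scal k l t j * z j / (scal k l t i * z i)) *
      (scal k l t i / scal k l t j) := by
    intro i j
    have := hsp i
    have := hsp j
    have := hz0 i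
    field_simp
  have hmain : t ^ 2 / ρ ≤ |W k l * (z l / z k)| := by
    rw [hWkl, one_mul, hratio k l]
    have e1 : scal k l t k / scal k l t l = t ^ 2 := by
      unfold scal
      rw [if_pos rfl, if_neg (Ne.symm hkl), if_pos rfl]
      field_simp
    rw [e1, abs_mul, abs_of_pos (by positivity : (0 : ℝ) < t ^ 2)]
    have h1 := hz l k
    have e2 : scal k l t k * z k / (scal k l t l * z l)
        = (scal k l t l * z l / (scal k l t k * z k))⁻¹ := by rw [inv_div]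
    rw [e2, abs_inv] at h1
    have h3 : 0 < |scal k l t l * z l / (scal k l t k * z k)| := by
      apply abs_pos.mpr
      exact div_ne_zero (mul_ne_zero (hsp l).ne' (hz0 l)) (mul_ne_zero (hsp k).ne' (hz0 k))
    have h4 : 1 / ρ ≤ |scal k l t l * z l / (scal k l t k * z k)| := by
      rw [div_le_iff₀ hρ]
      rw [inv_le_iff_one_le_mul₀ h3] at h1
      linarith
    calc t ^ 2 / ρ = (1 / ρ) * t ^ 2 := by ring
      _ ≤ _ := mul_le_mul_of_nonneg_right h4 (by positivity)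
  have hother : ∀ i j, |(if i = k ∧ j = l then 0 else W i j * (z j / z i))| ≤ ρ * t := by
    intro i j
    by_cases hij : i = k ∧ j = l
    · rw [if_pos hij, abs_zero]; positivity
    · rw [if_neg hij]
      by_cases hne : i = j
      · subst hne
        rw [hWd, zero_mul, abs_zero]; positivity
      · rw [abs_mul, hratio i j, abs_mul]
        have h1 := scal_le hkl ht hij hne
        have h2 : 0 < scal k l t i / scal k l t j := div_pos (hsp i) (hsp j)
        rw [abs_of_pos h2]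
        calc |W i j| * (|scal k l t j * z j / (scal k l t i * z i)| *
            (scal k l t i / scal k l t j)) ≤ 1 * (ρ * t) := by
              refine mul_le_mul (hW i j) (mul_le_mul (hz i j) h1 h2.le hρ.le) (by positivity)
                zero_le_one
          _ = ρ * t := one_mul _
  have hsum : |∑ i, ∑ j, (if i = k ∧ j = l then 0 else W i j * (z j / z i))| ≤ 9 * (ρ * t) := by
    refine (Finset.abs_sum_le_sum_abs _ _).trans ?_
    have h1 : ∀ i, |∑ j, (if i = k ∧ j = l then 0 else W i j * (z j / z i))| ≤ 3 * (ρ * t) := by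
      intro i
      refine (Finset.abs_sum_le_sum_abs _ _).trans ?_
      rw [Fin.sum_univ_three]
      linarith [hother i 0, hother i 1, hother i 2]
    rw [Fin.sum_univ_three]
    linarith [h1 0, h1 1, h1 2]
  have hL : Lin W z = W k l * (z l / z k)
      + ∑ i, ∑ j, (if i = k ∧ j = l then 0 else W i j * (z j / z i)) := by
    unfold Lin
    exact sum_isolate (fun i j => W i j * (z j / z i)) k l
  rw [hL]
  have h5 := abs_sub_abs_le_abs_sub (W k l * (z l / z k))
    (-(∑ i, ∑ j, (if i = k ∧ j = l then 0 else W i j * (z j / z i))))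
  rw [abs_neg, sub_neg_eq_add] at h5
  linarith

lemma diag_of_off {G : Mt} (hd : G.det = 1) (h : ∀ i j, i ≠ j → G i j = 0) :
    G = Matrix.diagonal (fun i => G i i) ∧ (Matrix.diagonal (fun i => G i i)).det = 1 := by
  have h1 : G = Matrix.diagonal (fun i => G i i) := by
    ext i j
    by_cases hij : i = j
    · subst hij; simp
    · rw [Matrix.diagonal_apply_ne _ hij, h i j hij]
  refine ⟨h1, ?_⟩
  rw [← h1]; exact hd

theorem rigid {S : Set Mt} (hS : Bd S) {d0 R : ℝ}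
    (H : ∀ M ∈ S, ∃ v : Fin 3 → ℤ, v ≠ 0 ∧ (∀ i, |(M *ᵥ cv v) i| ≤ R) ∧ prodForm M (cv v) = d0)
    {M : Mt} (hM : M ∈ S) :
    ∃ U ∈ 𝓝 M, ∀ N ∈ S, N ∈ U → ∃ d : Fin 3 → ℝ, (Matrix.diagonal d).det = 1 ∧
      N = Matrix.diagonal d * M := by
  by_contra hcon
  push Not at hcon
  have hcl : M ∈ closure {N : Mt | N ∈ S ∧ ∀ d : Fin 3 → ℝ, (Matrix.diagonal d).det = 1 →
      N ≠ Matrix.diagonal d * M} := by
    rw [mem_closure_iff_nhds]
    intro t ht
    obtain ⟨N, hN, hNt, h⟩ := hcon t ht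
    exact ⟨N, hNt, hN, h⟩
  obtain ⟨Ms, hMs, hlim0⟩ := mem_closure_iff_seq_limit.mp hcl
  set F : Ultrafilter ℕ := hyperfilter ℕ with hF
  have hlim : Tendsto Ms F (𝓝 M) := hlim0.mono_left Nat.hyperfilter_le_atTop
  have hMdet := hS.det M hM
  set G : ℕ → Mt := fun n => Ms n * M⁻¹ with hGdef
  have hG1 : Tendsto G F (𝓝 1) := by
    have h1 := tendsto_mul' hlim (tendsto_const_nhds (x := M⁻¹))
    rwa [mul_inv_one hMdet] at h1
  have hGdet : ∀ n, (G n).det = 1 := by
    intro n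
    rw [hGdef]
    simp only
    rw [det_mul, hS.det _ (hMs n).1, det_inv_one hMdet, one_mul]
  have hGM : ∀ n, G n * M = Ms n := by
    intro n
    rw [hGdef]
    simp only
    rw [mul_assoc, inv_mul_one hMdet, mul_one]
  -- the largest off-diagonal entry
  have hmax : ∀ n, ∃ p : Fin 3 × Fin 3, p.1 ≠ p.2 ∧ G n p.1 p.2 ≠ 0 ∧
      ∀ i j, i ≠ j → |G n i j| ≤ |G n p.1 p.2| := by
    intro n
    obtain ⟨p, hp, hpmax⟩ := Finset.exists_max_image
      (Finset.univ.filter (fun p : Fin 3 × Fin 3 => p.1 ≠ p.2)) (fun p => |G n p.1 p.2|)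
      ⟨(0, 1), by simp⟩
    rw [Finset.mem_filter] at hp
    have h1 : ∀ i j, i ≠ j → |G n i j| ≤ |G n p.1 p.2| := by
      intro i j hij
      exact hpmax (i, j) (by simp [hij])
    refine ⟨p, hp.2, ?_, h1⟩
    intro h0
    have h2 : ∀ i j, i ≠ j → G n i j = 0 := by
      intro i j hij
      have h3 := h1 i j hij
      rw [h0, abs_zero] at h3
      exact abs_nonpos_iff.mp h3
    obtain ⟨h3, h4⟩ := diag_of_off (hGdet n) h2
    refine (hMs n).2 _ h4 ?_
    rw [← h3, hGM]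
  choose p hp1 hp2 hp3 using hmax
  obtain ⟨q, -, hq⟩ := ult_fin F p Set.univ Set.finite_univ (Eventually.of_forall fun _ => mem_univ _)
  obtain ⟨k, l⟩ := q
  have hkl : k ≠ l := by
    obtain ⟨n, hn⟩ := hq.exists
    have := hp1 n
    rw [hn] at this
    exact this
  set ε : ℕ → ℝ := fun n => G n k l with hε
  have hεne : ∀ᶠ n in (F : Filter ℕ), ε n ≠ 0 := by
    filter_upwards [hq] with n hn
    have := hp2 n
    rw [hn] at this
    exact this
  have hε0 : Tendsto ε F (𝓝 0) := by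
    have := tendsto_entry hG1 k l
    rwa [Matrix.one_apply_ne hkl] at this
  set W : ℕ → Mt := fun n => Matrix.of fun i j => if i = j then 0 else G n i j / ε n with hW
  have hWle : ∀ᶠ n in (F : Filter ℕ), ∀ i, ∀ j, |W n i j| ≤ 1 := by
    filter_upwards [hq, hεne] with n hn hn2 i j
    rw [hW]
    simp only [Matrix.of_apply]
    by_cases hij : i = j
    · rw [if_pos hij, abs_zero]; exact zero_le_one
    · rw [if_neg hij, abs_div, div_le_one (abs_pos.mpr hn2)]
      have := hp3 n i j hij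
      rw [hn] at this
      exact this
  have hWlim : ∀ i, ∃ w : Fin 3 → ℝ, (∀ j, |w j| ≤ 1) ∧ Tendsto (fun n => W n i) F (𝓝 w) := by
    intro i
    exact ult_lim_vec F (fun n => W n i) (fun _ => 1) (by
      filter_upwards [hWle] with n hn; exact hn i)
  choose w hw1 hw2 using hWlim
  set W0 : Mt := Matrix.of w with hW0
  have hWW : Tendsto W F (𝓝 W0) := tendsto_pi_nhds.mpr hw2
  have hW0le : ∀ i j, |W0 i j| ≤ 1 := fun i j => hw1 i j
  have hW0d : ∀ i, W0 i i = 0 := by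
    intro i
    refine tendsto_nhds_unique (tendsto_entry hWW i i) ?_
    have : (fun n => W n i i) = fun _ => (0 : ℝ) := by
      funext n; rw [hW]; simp
    rw [this]; exact tendsto_const_nhds
  have hW0kl : W0 k l = 1 := by
    refine tendsto_nhds_unique (tendsto_entry hWW k l) ?_
    refine tendsto_const_nhds.congr' ?_
    filter_upwards [hεne] with n hn
    rw [hW]
    simp only [Matrix.of_apply]
    rw [if_neg hkl]
    exact (div_self hn).symm
  have hGW : ∀ᶠ n in (F : Filter ℕ), ∀ i j,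
      G n i j = (if i = j then G n i i else 0) + ε n * W n i j := by
    filter_upwards [hεne] with n hn i j
    rw [hW]
    simp only [Matrix.of_apply]
    by_cases hij : i = j
    · subst hij; simp
    · rw [if_neg hij, if_neg hij, zero_add]
      field_simp
  -- constants
  obtain ⟨δ, hδ, hlow⟩ := hS.low
  obtain ⟨v, hv0, hv1, hv2, hv3⟩ := window hS H F hM (fun n => (hMs n).1) hlim
    (a := fun _ => 1) (by simp)
  have hd0 : 0 < |d0| := by
    have := hlow M hM v hv0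
    rw [hv2] at this
    linarith
  have hR : 0 ≤ R := (abs_nonneg _).trans (hv1 0)
  set x : Fin 3 → ℝ := M *ᵥ cv v with hx
  have hxx : x 0 * x 1 * x 2 = d0 := by
    rw [← hv2]; unfold prodForm; rw [Fin.prod_univ_three]
  have hxx' : |x 0 * x 1 * x 2| = |d0| := by rw [hxx]
  have hxR : ∀ i, |x i| ≤ R := fun i => by
    have := hv1 i
    rwa [one_mul] at this
  set ρ := R ^ 3 / |d0| with hρ
  have hxr := ratio hd0 hxR hxx'
  have hnz : ∀ y : Fin 3 → ℝ, y 0 * y 1 * y 2 = d0 → ∀ i, y i ≠ 0 := by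
    intro y hy i hi
    have hd0' : d0 ≠ 0 := abs_pos.mp hd0
    apply hd0'
    rw [← hy]
    fin_cases i <;> simp only [Fin.zero_eta, Fin.mk_one, Fin.reduceFinMk] at hi <;>
      rw [hi] <;> simp
  have hx0 := hnz x hxx
  have hρ1 : 1 ≤ ρ := by
    have := hxr 0 0
    rwa [div_self (hx0 0), abs_one] at this
  have hρ0 : 0 < ρ := by linarith
  set t := 20 * ρ ^ 2 with ht
  have ht1 : 1 ≤ t := by nlinarith
  have ht0 : 0 < t := by linarith
  obtain ⟨u, hu0, hu1, hu2, hu3⟩ := window hS H F hM (fun n => (hMs n).1) hlim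
    (a := scal k l t) (scal_det hkl ht0.ne')
  set z : Fin 3 → ℝ := M *ᵥ cv u with hz
  have hzz : z 0 * z 1 * z 2 = d0 := by
    rw [← hu2]; unfold prodForm; rw [Fin.prod_univ_three]
  have hz0 := hnz z hzz
  have hzr := ratio (x := fun i => scal k l t i * z i) hd0 hu1 (by
    have h1 := scal_det hkl ht0.ne'
    rw [det_diagonal3] at h1
    have : scal k l t 0 * z 0 * (scal k l t 1 * z 1) * (scal k l t 2 * z 2)
        = (scal k l t 0 * scal k l t 1 * scal k l t 2) * (z 0 * z 1 * z 2) := by ring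
    rw [this, h1, one_mul, hzz])
  -- the two limits agree
  have hpG : ∀ v : Fin 3 → ℤ, ∀ n, prodForm (G n) (M *ᵥ cv v) = prodForm (Ms n) (cv v) := by
    intro v n
    rw [← prodForm_mul, hGM]
  have l1 := lin_limit F hG1 hWW hεne hε0 hGW x hx0 (by
    filter_upwards [hv3] with n hn
    rw [hx, hpG, hn, ← hxx])
  have l2 := lin_limit F hG1 hWW hεne hε0 hGW z hz0 (by
    filter_upwards [hu3] with n hn
    rw [hz, hpG, hn, ← hzz])
  have heq := tendsto_nhds_unique l1 l2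
  have b1 := lin_upper hW0le hxr
  have b2 := lin_lower hW0le hW0d hkl hW0kl ht1 hρ0 hz0 hzr
  rw [← heq] at b2
  have h1 : t ^ 2 / ρ = 400 * ρ ^ 3 := by
    rw [ht]; field_simp; ring
  have h2 : 9 * (ρ * t) = 180 * ρ ^ 3 := by rw [ht]; ring
  rw [h1, h2] at b2
  have h3 : ρ ≤ ρ ^ 3 := by
    have : 1 ≤ ρ ^ 2 := one_le_pow₀ hρ1
    nlinarith
  linarith

end M3C
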